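import Mathlib
import Pool.Agent.TH7.DH.Fin

set_option autoImplicit false

/-!
# The planted kernel of a bounded kernel (after `Pool.Agent.TH7.DH.Ker`, for kernels which are not products)
-/

namespace Pool.Agent.K4H98.Theta

open Finset Pool.Agent.TH7.DH

variable {d : ℕ}

open Classical in
/-- The planted kernel of a kernel `M`. -/
noncomputable def KN (N : ℕ) (M : Finset (Fin d → Fin N) → Finset (Fin d → Fin N) → ℝ) (ι : Type)
    [Fintype ι] (P Q : (Fin d → ι) → Prop) : ℝ :=
  av (fun φ : ι ↪ Fin N => av (fun A => M (ow φ P A) (ow φ Q A)))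

lemma KN_bdd {N : ℕ} {M : Finset (Fin d → Fin N) → Finset (Fin d → Fin N) → ℝ}
    (b : ∀ A B, |M A B| ≤ 1) (ι : Type) [Fintype ι] (P Q : (Fin d → ι) → Prop) :
    |KN N M ι P Q| ≤ 1 := by
  classical
  unfold KN
  exact av_abs_le zero_le_one fun φ => av_abs_le zero_le_one fun A => b _ _

lemma KN_equiv {N : ℕ} {M : Finset (Fin d → Fin N) → Finset (Fin d → Fin N) → ℝ} {ι ι' : Type}
    [Fintype ι] [Fintype ι'] (e : ι ≃ ι') (P Q : (Fin d → ι') → Prop) :
    KN N M ι (fun c => P (fun t => e (c t))) (fun c => Q (fun t => e (c t)))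
      = KN N M ι' P Q := by
  classical
  unfold KN
  rw [← av_equiv (Equiv.embeddingCongr e (Equiv.refl (Fin N)))
    (fun φ : ι' ↪ Fin N => av (fun A => M (ow φ P A) (ow φ Q A)))]
  congr 1
  funext φ
  congr 1
  funext A
  rw [ow_equiv, ow_equiv]
  rfl

/-- adding one index on whose cells the two patterns agree changes little -/
theorem KN_step {N : ℕ} {K : Finset (Fin d → Fin N) → Finset (Fin d → Fin N) → ℝ}
    (b : ∀ A B, |K A B| ≤ 1) {ι : Type} [Fintype ι] (hN : Fintype.card ι < N)
    (P Q : (Fin d → Option ι) → Prop) (hPQ : ∀ e, (∃ t, e t = none) → (P e ↔ Q e)) :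
    |KN N K (Option ι) P Q
      - KN N K ι (fun e => P (fun t => some (e t))) (fun e => Q (fun t => some (e t)))|
      ≤ Real.sqrt (2 ^ (univ.filter (fun e : Fin d → Option ι => ∃ t, e t = none)).card /
          ((N - Fintype.card ι : ℕ) : ℝ)) := by
  classical
  set M := (univ.filter (fun e : Fin d → Option ι => ∃ t, e t = none)).card with hM
  set m := N - Fintype.card ι with hm
  have hm0 : 0 < m := by omega
  have hm' : (0 : ℝ) < m := by exact_mod_cast hm0
  set E := (2 : ℝ) ^ Fintype.card (Fin d → Fin N) with hE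
  have hE0 : 0 < E := by positivity
  have hcardA : ((Fintype.card (Finset (Fin d → Fin N)) : ℕ) : ℝ) = E := by
    rw [Fintype.card_finset]
    push_cast
    rfl
  -- the function of the base set for given `φ`
  set F : (ι ↪ Fin N) → Finset (Fin d → Fin N) → ℝ := fun φ B =>
    K (ow φ (fun e => P (fun t => some (e t))) B) (ow φ (fun e => Q (fun t => some (e t))) B)
    with hF
  have hF1 : ∀ φ B, |F φ B| ≤ 1 := by
    intro φ B
    exact b _ _
  have e1 : KN N K (Option ι) P Q
      = av (fun x : (Σ φ : ι ↪ Fin N, ↥(Set.range φ)ᶜ) =>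
          av (fun A => F x.1 ((A \ newCells (x.1.optionElim x.2 x.2.2))
            ∪ newPat (x.1.optionElim x.2 x.2.2) P))) := by
    unfold KN
    rw [← av_equiv (Function.Embedding.optionEmbeddingEquiv ι (Fin N)).symm]
    congr 1
    funext x
    congr 1
    funext A
    have hs : Function.Embedding.some.trans (x.1.optionElim x.2 x.2.2) = x.1 := by
      ext i
      rfl
    rw [hF]
    simp only
    rw [ow_option, ow_option]
    have h3 : (Function.Embedding.optionEmbeddingEquiv ι (Fin N)).symm x
        = x.1.optionElim x.2 x.2.2 := rfl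
    rw [h3, hs, newPat_congr _ hPQ]
  have e2 : KN N K ι (fun e => P (fun t => some (e t))) (fun e => Q (fun t => some (e t)))
      = av (fun φ : ι ↪ Fin N => av (fun A => F φ A)) := rfl
  rw [e1, e2]
  have hcard : ∀ φ : ι ↪ Fin N, Fintype.card ↥(Set.range φ)ᶜ = m := by
    intro φ
    rw [Fintype.card_compl_set, Fintype.card_fin, hm]
    congr 1
    exact Set.card_range_of_injective φ.injective
  refine av_sigma_close hm0 hcard _ _ (Real.sqrt_nonneg _) fun φ => ?_
  -- apply the concentration lemma
  have hc := conc_abs (J := ↥(Set.range φ)ᶜ)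
    (fun j => newCells (φ.optionElim j j.2) : ↥(Set.range φ)ᶜ → Finset (Fin d → Fin N))
    (fun j => newPat (φ.optionElim j j.2) P) (fun j => newPat_sub _ _) (c := M)
    (fun j => card_newCells _) ?_ (F φ) (hF1 φ)
  · rw [hcard φ] at hc
    have h4 : ∑ y : ↥(Set.range φ)ᶜ, av (fun A => F φ ((A \ newCells (φ.optionElim y y.2))
            ∪ newPat (φ.optionElim y y.2) P)) - m * av (fun A => F φ A)
        = (∑ y : ↥(Set.range φ)ᶜ, ∑ A, F φ ((A \ newCells (φ.optionElim y y.2))
            ∪ newPat (φ.optionElim y y.2) P) - m * ∑ A, F φ A) / E := by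
      unfold av
      rw [hcardA, ← sum_div]
      ring
    rw [h4, abs_div, abs_of_pos hE0, div_le_iff₀ hE0]
    refine hc.trans (le_of_eq ?_)
    have h5 : (m : ℝ) * Real.sqrt (2 ^ M / m) = Real.sqrt (m * 2 ^ M) := by
      rw [← Real.sqrt_sq hm'.le, ← Real.sqrt_mul (by positivity)]
      rw [Real.sqrt_sq hm'.le]
      congr 1
      field_simp
    rw [h5]
    ring
  · -- disjointness
    intro j k hjk
    rw [Finset.disjoint_left]
    intro c hcj hck
    rw [mem_newCells] at hcj hck
    obtain ⟨e, ⟨t, ht⟩, he⟩ := hcj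
    obtain ⟨e', -, he'⟩ := hck
    have h6 : c t = j := by
      rw [← he]
      simp only [ht]
      rfl
    have h7 : c t = (φ.optionElim k k.2) (e' t) := by
      rw [← he']
    rw [h6] at h7
    rcases h8 : e' t with _ | x
    · rw [h8] at h7
      have h9 : (φ.optionElim (k : Fin N) k.2) none = k := rfl
      rw [h9] at h7
      exact hjk (Subtype.ext h7)
    · rw [h8] at h7
      have h9 : (φ.optionElim (k : Fin N) k.2) (some x) = φ x := rfl
      rw [h9] at h7
      exact j.2 ⟨x, h7.symm⟩

end Pool.Agent.K4H98.Theta
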