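import Mathlib
import Pool.Agent.K4H98.Theta.Ker

set_option autoImplicit false

/-!
# The limit kernel
-/

namespace Pool.Agent.K4H98.Theta

open Finset Filter Topology Pool.Agent.TH7.DH

/-- A bounded kernel on the subsets of `[N]^d` for every `N`, and a nonprincipal ultrafilter. -/
structure Sys (d : ℕ) where
  V : Ultrafilter ℕ
  hV : (V : Filter ℕ) ≤ atTop
  M : (N : ℕ) → Finset (Fin d → Fin N) → Finset (Fin d → Fin N) → ℝ
  b : ∀ N A B, |M N A B| ≤ 1

variable {d : ℕ} (S : Sys d)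

/-- the limit kernel -/
noncomputable def Sys.K (ι : Type) [Fintype ι] (P Q : (Fin d → ι) → Prop) : ℝ :=
  ulim S.V (fun N => KN N (S.M N) ι P Q)

lemma Sys.bddKN (ι : Type) [Fintype ι] (P Q : (Fin d → ι) → Prop) :
    Bdd (fun N => KN N (S.M N) ι P Q) :=
  ⟨1, fun N => KN_bdd (S.b N) ι P Q⟩

lemma Sys.tendsto (ι : Type) [Fintype ι] (P Q : (Fin d → ι) → Prop) :
    Tendsto (fun N => KN N (S.M N) ι P Q) S.V (𝓝 (S.K ι P Q)) :=
  ulim_tendsto (S.bddKN ι P Q)

lemma Sys.K_abs (ι : Type) [Fintype ι] (P Q : (Fin d → ι) → Prop) : |S.K ι P Q| ≤ 1 := by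
  refine le_of_tendsto (S.tendsto ι P Q).abs (Eventually.of_forall fun N => ?_)
  exact KN_bdd (S.b N) ι P Q

lemma Sys.K_equiv {ι ι' : Type} [Fintype ι] [Fintype ι'] (e : ι ≃ ι')
    (P Q : (Fin d → ι') → Prop) :
    S.K ι (fun c => P (fun t => e (c t))) (fun c => Q (fun t => e (c t))) = S.K ι' P Q := by
  unfold Sys.K
  congr 1
  funext N
  exact KN_equiv e P Q

lemma Sys.K_congr {ι : Type} [Fintype ι] {P Q P' Q' : (Fin d → ι) → Prop}
    (hP : ∀ c, P c ↔ P' c) (hQ : ∀ c, Q c ↔ Q' c) : S.K ι P Q = S.K ι P' Q' := by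
  have h1 : P = P' := funext fun c => propext (hP c)
  have h2 : Q = Q' := funext fun c => propext (hQ c)
  rw [h1, h2]

lemma Sys.K_step {ι : Type} [Fintype ι] (P Q : (Fin d → Option ι) → Prop)
    (hPQ : ∀ e, (∃ t, e t = none) → (P e ↔ Q e)) :
    S.K (Option ι) P Q
      = S.K ι (fun e => P (fun t => some (e t))) (fun e => Q (fun t => some (e t))) := by
  classical
  set M := (univ.filter (fun e : Fin d → Option ι => ∃ t, e t = none)).card with hM
  have h1 := (S.tendsto (Option ι) P Q).sub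
    (S.tendsto ι (fun e => P (fun t => some (e t))) (fun e => Q (fun t => some (e t))))
  have h2 : Tendsto (fun N : ℕ => Real.sqrt (2 ^ M / ((N - Fintype.card ι : ℕ) : ℝ))) atTop
      (𝓝 0) := by
    have h3 : Tendsto (fun N : ℕ => ((N - Fintype.card ι : ℕ) : ℝ)) atTop atTop :=
      tendsto_natCast_atTop_atTop.comp (tendsto_sub_atTop_nat _)
    have h4 : Tendsto (fun N : ℕ => (2 : ℝ) ^ M / ((N - Fintype.card ι : ℕ) : ℝ)) atTop (𝓝 0) :=
      h3.const_div_atTop _
    have h5 := (Real.continuous_sqrt.tendsto 0).comp h4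
    rw [Real.sqrt_zero] at h5
    exact h5
  have h3 : Tendsto (fun N => KN N (S.M N) (Option ι) P Q
      - KN N (S.M N) ι (fun e => P (fun t => some (e t)))
        (fun e => Q (fun t => some (e t)))) S.V (𝓝 0) := by
    refine squeeze_zero_norm' ?_ (h2.mono_left S.hV)
    have h4 : ∀ᶠ N in (S.V : Filter ℕ), Fintype.card ι < N :=
      S.hV (eventually_gt_atTop (Fintype.card ι))
    filter_upwards [h4] with N hN
    rw [Real.norm_eq_abs]
    exact KN_step (S.b N) hN P Q hPQ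
  have := tendsto_nhds_unique h1 h3
  linarith

/-- the kernel depends only on the part of the patterns over the indices involved in the
difference -/
theorem Sys.K_local {ι' : Type} [Fintype ι'] (n : ℕ) : ∀ (ι : Type) [Fintype ι],
    Fintype.card ι = n → ∀ (g : ι' ↪ ι) (P Q : (Fin d → ι) → Prop),
    (∀ c : Fin d → ι, (∃ t, c t ∉ Set.range g) → (P c ↔ Q c)) →
    S.K ι P Q = S.K ι' (fun c => P (fun t => g (c t))) (fun c => Q (fun t => g (c t))) := by
  classical
  induction n with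
  | zero =>
    intro ι _ hn g P Q hPQ
    have h1 : Function.Surjective g := by
      intro x
      have : IsEmpty ι := Fintype.card_eq_zero_iff.1 hn
      exact this.elim x
    exact (S.K_equiv (Equiv.ofBijective g ⟨g.injective, h1⟩) P Q).symm
  | succ n ih =>
    intro ι _ hn g P Q hPQ
    by_cases h1 : Function.Surjective g
    · exact (S.K_equiv (Equiv.ofBijective g ⟨g.injective, h1⟩) P Q).symm
    · unfold Function.Surjective at h1
      push Not at h1
      obtain ⟨i, hi⟩ := h1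
      have hi' : i ∉ Set.range g := by
        rintro ⟨x, hx⟩
        exact hi x hx
      have hcard : Fintype.card {b : ι // b ≠ i} = n := by
        rw [Fintype.card_subtype_compl, hn]
        simp
      have h2 := S.K_equiv (Equiv.optionSubtypeNe i) P Q
      rw [← h2]
      rw [S.K_step]
      · have h3 := ih {b : ι // b ≠ i} hcard
          ⟨fun x => ⟨g x, hi x⟩, fun x y hxy => g.injective (congrArg Subtype.val hxy)⟩
          (fun e => P (fun t => (Equiv.optionSubtypeNe i) (some (e t))))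
          (fun e => Q (fun t => (Equiv.optionSubtypeNe i) (some (e t)))) ?_
        · rw [h3]
          rfl
        · rintro c ⟨t, ht⟩
          refine hPQ _ ⟨t, ?_⟩
          rintro ⟨x, hx⟩
          refine ht ⟨x, ?_⟩
          apply Subtype.ext
          exact hx
      · rintro e ⟨t, ht⟩
        refine hPQ _ ⟨t, ?_⟩
        rw [ht]
        exact hi'

theorem Sys.K_loc {ι ι' : Type} [Fintype ι] [Fintype ι'] (g : ι' ↪ ι) (P Q : (Fin d → ι) → Prop)
    (h : ∀ c : Fin d → ι, (∃ t, c t ∉ Set.range g) → (P c ↔ Q c)) :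
    S.K ι P Q = S.K ι' (fun c => P (fun t => g (c t))) (fun c => Q (fun t => g (c t))) :=
  S.K_local (Fintype.card ι) ι rfl g P Q h

/-- the value of the kernel at two equal patterns -/
noncomputable def Sys.v : ℝ := S.K Empty (fun _ => True) (fun _ => True)

lemma Sys.K_same (ι : Type) [Fintype ι] (hd : 1 ≤ d) (P Q : (Fin d → ι) → Prop)
    (h : ∀ c, P c ↔ Q c) : S.K ι P Q = S.v := by
  rw [S.K_loc (ι' := Empty) ⟨Empty.elim, fun x => x.elim⟩ P Q fun c _ => h c]
  refine S.K_congr ?_ ?_ <;>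
  · intro c
    exact (c ⟨0, hd⟩).elim


/-- `M` is symmetric and positive semidefinite -/
def Psd {X : Type} [Fintype X] (M : X → X → ℝ) : Prop :=
  (∀ x y, M x y = M y x) ∧ ∀ c : X → ℝ, 0 ≤ ∑ x, ∑ y, c x * c y * M x y

open scoped MatrixOrder in
/-- a positive semidefinite kernel is a sum of products -/
lemma Psd.gram {X : Type} [Fintype X] {M : X → X → ℝ} (hM : Psd M) :
    ∃ u : X → X → ℝ, ∀ x y, M x y = ∑ k, u k x * u k y := by
  classical
  have h1 : (Matrix.of M).PosSemidef := by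
    refine Matrix.PosSemidef.of_dotProduct_mulVec_nonneg ?_ ?_
    · ext x y
      simp [hM.1 x y]
    · intro c
      have h2 := hM.2 c
      simp only [Matrix.mulVec, dotProduct, star_trivial, Matrix.of_apply]
      refine h2.trans (le_of_eq ?_)
      refine sum_congr rfl fun x _ => ?_
      rw [mul_sum]
      refine sum_congr rfl fun y _ => ?_
      ring
  obtain ⟨B, hB⟩ := CStarAlgebra.nonneg_iff_eq_star_mul_self.mp h1.nonneg
  refine ⟨fun k x => B k x, fun x y => ?_⟩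
  have h3 := congrFun (congrFun hB x) y
  simp only [Matrix.of_apply] at h3
  rw [h3, Matrix.mul_apply]
  rfl

lemma KN_gram {N : ℕ} {M : Finset (Fin d → Fin N) → Finset (Fin d → Fin N) → ℝ}
    {u : Finset (Fin d → Fin N) → Finset (Fin d → Fin N) → ℝ}
    (hu : ∀ A B, M A B = ∑ k, u k A * u k B) (ι : Type) [Fintype ι] (P Q : (Fin d → ι) → Prop) :
    KN N M ι P Q = ∑ k, Pool.Agent.TH7.DH.KN N (u k) (u k) ι P Q := by
  classical
  unfold KN Pool.Agent.TH7.DH.KN
  simp only [hu, av_sum]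

lemma KN_psd {N : ℕ} {M : Finset (Fin d → Fin N) → Finset (Fin d → Fin N) → ℝ} (hM : Psd M)
    (ι : Type) [Fintype ι]
    (p w₀ : (Fin d → ι) → Prop) (w : ℕ → (Fin d → ι) → Prop) (n : ℕ) (t c' : ℝ) :
    0 ≤ t ^ 2 * KN N M ι p p + c' ^ 2 * KN N M ι w₀ w₀
      + (∑ i ∈ range (n + 1), KN N M ι (w i) (w i)
        + 2 * ∑ j ∈ range (n + 1), ∑ i ∈ range j, KN N M ι (w i) (w j)) / ((n : ℝ) + 1) ^ 2
      - 2 * c' / (n + 1) * ∑ i ∈ range (n + 1), KN N M ι w₀ (w i)
      + 2 * t * c' * KN N M ι p w₀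
      - 2 * t / (n + 1) * ∑ i ∈ range (n + 1), KN N M ι p (w i) := by
  classical
  obtain ⟨u, hu⟩ := hM.gram
  simp only [KN_gram hu]
  have h1 := Finset.sum_nonneg fun k (_ : k ∈ (univ : Finset (Finset (Fin d → Fin N)))) =>
    Pool.Agent.TH7.DH.KN_psd (u k) ι p w₀ w n t c'
  refine h1.trans (le_of_eq ?_)
  rw [sum_sub_distrib, sum_add_distrib, sum_sub_distrib, sum_add_distrib, sum_add_distrib,
    ← mul_sum, ← mul_sum, ← sum_div, sum_add_distrib, ← mul_sum, ← mul_sum, ← mul_sum, ← mul_sum]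
  have e1 : ∑ k, ∑ i ∈ range (n + 1), Pool.Agent.TH7.DH.KN N (u k) (u k) ι (w i) (w i)
      = ∑ i ∈ range (n + 1), ∑ k, Pool.Agent.TH7.DH.KN N (u k) (u k) ι (w i) (w i) := sum_comm
  have e2 : ∑ k, ∑ j ∈ range (n + 1), ∑ i ∈ range j,
        Pool.Agent.TH7.DH.KN N (u k) (u k) ι (w i) (w j)
      = ∑ j ∈ range (n + 1), ∑ i ∈ range j, ∑ k,
        Pool.Agent.TH7.DH.KN N (u k) (u k) ι (w i) (w j) := by
    rw [sum_comm]
    exact sum_congr rfl fun j _ => sum_comm
  have e3 : ∑ k, ∑ i ∈ range (n + 1), Pool.Agent.TH7.DH.KN N (u k) (u k) ι w₀ (w i)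
      = ∑ i ∈ range (n + 1), ∑ k, Pool.Agent.TH7.DH.KN N (u k) (u k) ι w₀ (w i) := sum_comm
  have e4 : ∑ k, ∑ i ∈ range (n + 1), Pool.Agent.TH7.DH.KN N (u k) (u k) ι p (w i)
      = ∑ i ∈ range (n + 1), ∑ k, Pool.Agent.TH7.DH.KN N (u k) (u k) ι p (w i) := sum_comm
  rw [e1, e2, e3, e4]

/-- positivity of the limit kernel -/
theorem Sys.K_psd (hS : ∀ N, Psd (S.M N)) (ι : Type) [Fintype ι]
    (p w₀ : (Fin d → ι) → Prop) (w : ℕ → (Fin d → ι) → Prop) (n : ℕ) (t c' : ℝ) :
    0 ≤ t ^ 2 * S.K ι p p + c' ^ 2 * S.K ι w₀ w₀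
      + (∑ i ∈ range (n + 1), S.K ι (w i) (w i)
        + 2 * ∑ j ∈ range (n + 1), ∑ i ∈ range j, S.K ι (w i) (w j)) / ((n : ℝ) + 1) ^ 2
      - 2 * c' / (n + 1) * ∑ i ∈ range (n + 1), S.K ι w₀ (w i)
      + 2 * t * c' * S.K ι p w₀
      - 2 * t / (n + 1) * ∑ i ∈ range (n + 1), S.K ι p (w i) := by
  have T := fun P Q => S.tendsto ι P Q
  refine ge_of_tendsto' (f := fun N => t ^ 2 * KN N (S.M N) ι p p
      + c' ^ 2 * KN N (S.M N) ι w₀ w₀
      + (∑ i ∈ range (n + 1), KN N (S.M N) ι (w i) (w i)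
        + 2 * ∑ j ∈ range (n + 1), ∑ i ∈ range j, KN N (S.M N) ι (w i) (w j))
          / ((n : ℝ) + 1) ^ 2
      - 2 * c' / (n + 1) * ∑ i ∈ range (n + 1), KN N (S.M N) ι w₀ (w i)
      + 2 * t * c' * KN N (S.M N) ι p w₀
      - 2 * t / (n + 1) * ∑ i ∈ range (n + 1), KN N (S.M N) ι p (w i))
    (b := 0) (x := (S.V : Filter ℕ)) ?_ ?_
  · refine Tendsto.sub (Tendsto.add (Tendsto.sub (Tendsto.add (Tendsto.add
      ((T p p).const_mul _) ((T w₀ w₀).const_mul _)) ?_) ?_) ((T p w₀).const_mul _)) ?_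
    · refine Tendsto.div_const (Tendsto.add ?_ (Tendsto.const_mul _ ?_)) _
      · exact tendsto_finsetSum _ fun i _ => T _ _
      · exact tendsto_finsetSum _ fun j _ => tendsto_finsetSum _ fun i _ => T _ _
    · exact Tendsto.const_mul _ (tendsto_finsetSum _ fun i _ => T _ _)
    · exact Tendsto.const_mul _ (tendsto_finsetSum _ fun i _ => T _ _)
  · intro N
    exact KN_psd (hS N) ι p w₀ w n t c'

end Pool.Agent.K4H98.Theta
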