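import Mathlib
import Pool.Agent.K4H98.Theta.Ind

set_option autoImplicit false

/-!
# The upper bound for the theta body (after `Pool.Agent.TH7.DH.Fin`)
-/

namespace Pool.Agent.K4H98.Theta

open Finset Filter Topology Pool.Agent.TH7.DH

variable {d : ℕ}

/-- The point `(p, q)` is in the theta body: the matrix `q` bordered by `p` and `1` is positive
semidefinite and the diagonal of `q` is `p`. -/
structure Body {X : Type} [Fintype X] (p : X → ℝ) (q : X → X → ℝ) : Prop where
  symm : ∀ A B, q A B = q B A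
  diag : ∀ A, q A A = p A
  psd : ∀ (t : ℝ) (c : X → ℝ), 0 ≤ t ^ 2 + 2 * t * ∑ A, c A * p A + ∑ A, ∑ B, c A * c B * q A B

namespace Body

variable {X : Type} [Fintype X] {p : X → ℝ} {q : X → X → ℝ}

lemma two (h : Body p q) (A B : X) (t a b : ℝ) :
    0 ≤ t ^ 2 + 2 * t * (a * p A + b * p B) + (a ^ 2 * q A A + 2 * a * b * q A B + b ^ 2 * q B B) := by
  classical
  have h1 := h.psd t (fun X => (if X = A then a else 0) + (if X = B then b else 0))
  have e1 : ∑ X, ((if X = A then a else 0) + (if X = B then b else 0)) * p X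
      = a * p A + b * p B := by
    simp [add_mul, sum_add_distrib]
  have e2 : ∑ X, ∑ Y, ((if X = A then a else 0) + (if X = B then b else 0)) *
      ((if Y = A then a else 0) + (if Y = B then b else 0)) * q X Y
      = a ^ 2 * q A A + 2 * a * b * q A B + b ^ 2 * q B B := by
    have e3 : ∀ X, ∑ Y, ((if X = A then a else 0) + (if X = B then b else 0)) *
      ((if Y = A then a else 0) + (if Y = B then b else 0)) * q X Y
      = ((if X = A then a else 0) + (if X = B then b else 0)) * (a * q X A + b * q X B) := by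
      intro X
      simp only [mul_assoc, ← mul_sum]
      congr 1
      simp [add_mul, sum_add_distrib]
    simp only [e3]
    simp only [add_mul, sum_add_distrib, ite_mul, zero_mul, sum_ite_eq', mem_univ,
      if_true]
    rw [h.symm B A]
    ring
  rw [e1, e2] at h1
  exact h1

lemma p_nonneg (h : Body p q) (A : X) : 0 ≤ p A := by
  have h1 := h.two A A 0 1 0
  rw [h.diag] at h1
  linarith

lemma p_le (h : Body p q) (A : X) : p A ≤ 1 := by
  have h1 := h.two A A 1 (-1) 0
  rw [h.diag] at h1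
  linarith

lemma q_abs (h : Body p q) (A B : X) : |q A B| ≤ 1 := by
  have h1 := h.two A B 0 1 1
  have h2 := h.two A B 0 1 (-1)
  rw [h.diag, h.diag] at h1 h2
  have h3 := h.p_le A
  have h4 := h.p_le B
  rw [abs_le]
  constructor <;> linarith

/-- the centred kernel is positive semidefinite -/
lemma centre (h : Body p q) (D s : ℝ) (hs : 0 ≤ s) :
    Psd (fun A B => s * (q A B - D * p A - D * p B + D ^ 2)) := by
  constructor
  · intro x y
    simp only
    rw [h.symm x y]
    ring
  · intro c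
    have h1 := h.psd (-(D * ∑ A, c A)) c
    have h2 : ∑ x, ∑ y, c x * c y * (s * (q x y - D * p x - D * p y + D ^ 2))
        = s * ((-(D * ∑ A, c A)) ^ 2 + 2 * (-(D * ∑ A, c A)) * ∑ A, c A * p A
          + ∑ A, ∑ B, c A * c B * q A B) := by
      have e1 : ∀ x y, c x * c y * (s * (q x y - D * p x - D * p y + D ^ 2))
          = s * (c x * c y * q x y) + (-(s * D) * (c x * p x)) * c y
            + (-(s * D) * c x) * (c y * p y) + (s * D ^ 2 * c x) * c y := by
        intro x y
        ring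
      simp only [e1, sum_add_distrib, ← mul_sum, ← sum_mul]
      ring
    rw [h2]
    exact mul_nonneg hs h1

end Body

/-- If `(p N, q N)` is in the theta body and `q N` is at most zero at `A` and `A` with the cells of a planted
nonempty grid filled in, for every `N`, then the limit of the averages of `p N` is at most
`(2^(d-1) - 1)/(2^d - 1)`. -/
theorem limit_le (hd : 1 ≤ d) (V : Ultrafilter ℕ) (hV : (V : Filter ℕ) ≤ atTop)
    (p : (N : ℕ) → Finset (Fin d → Fin N) → ℝ)
    (q : (N : ℕ) → Finset (Fin d → Fin N) → Finset (Fin d → Fin N) → ℝ)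
    (hpq : ∀ N, Body (p N) (q N))
    (hgood : ∀ (N s : ℕ) (φ : Empty ⊕ Fin (s + 1) ↪ Fin N) (A : Finset (Fin d → Fin N)),
      q N (ow φ (fun _ => False) A) (ow φ (fun _ => True) A) ≤ 0)
    (D : ℝ) (hD0 : 0 < D) (hD1 : D ≤ 1)
    (hD : Tendsto (fun N => av (fun A => p N A)) V (𝓝 D)) :
    D ≤ ((2 : ℝ) ^ (d - 1) - 1) / (2 ^ d - 1) := by
  classical
  have hlarge : ∀ n : ℕ, ∀ᶠ N in (V : Filter ℕ), n ≤ N := fun n => hV (eventually_ge_atTop n)
  have hp0 : ∀ N A, 0 ≤ p N A := fun N A => (hpq N).p_nonneg A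
  have hp1 : ∀ N A, p N A ≤ 1 := fun N A => (hpq N).p_le A
  -- the systems
  let Sf1 : Sys d := ⟨V, hV, fun N A _ => p N A, fun N A _ => by
    rw [abs_of_nonneg (hp0 N A)]
    exact hp1 N A⟩
  let h : (N : ℕ) → Finset (Fin d → Fin N) → Finset (Fin d → Fin N) → ℝ :=
    fun N A B => 1 / 4 * (q N A B - D * p N A - D * p N B + D ^ 2)
  have hh : ∀ N A B, |h N A B| ≤ 1 := by
    intro N A B
    have h1 := abs_le.1 ((hpq N).q_abs A B)
    have h2 := hp0 N A
    have h3 := hp1 N A
    have h4 := hp0 N B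
    have h5 := hp1 N B
    have h6 : 0 ≤ D * p N A := mul_nonneg hD0.le h2
    have h7 : D * p N A ≤ 1 := mul_le_one₀ hD1 h2 h3
    have h8 : 0 ≤ D * p N B := mul_nonneg hD0.le h4
    have h9 : D * p N B ≤ 1 := mul_le_one₀ hD1 h4 h5
    have h10 : 0 ≤ D ^ 2 := sq_nonneg D
    have h11 : D ^ 2 ≤ 1 := pow_le_one₀ hD0.le hD1
    rw [abs_le]
    constructor
    · change -1 ≤ 1 / 4 * (q N A B - D * p N A - D * p N B + D ^ 2)
      linarith
    · change 1 / 4 * (q N A B - D * p N A - D * p N B + D ^ 2) ≤ 1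
      linarith
  let Sh : Sys d := ⟨V, hV, h, hh⟩
  let Sq : Sys d := ⟨V, hV, q, fun N A B => (hpq N).q_abs A B⟩
  have hSh : ∀ N, Psd (Sh.M N) := fun N => (hpq N).centre D (1 / 4) (by norm_num)
  -- the density of planted sets
  have hav : ∀ (ι : Type) [Fintype ι] (P : (Fin d → ι) → Prop),
      Tendsto (fun N => av (fun φ : ι ↪ Fin N => av (fun A => p N (ow φ P A)))) V (𝓝 D) := by
    intro ι _ P
    have h1 := Sf1.tendsto ι P P
    have h2 : Sf1.K ι P P = D := by
      rw [Sf1.K_same ι hd P P fun _ => Iff.rfl]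
      refine tendsto_nhds_unique (Sf1.tendsto Empty (fun _ => True) (fun _ => True)) ?_
      refine hD.congr fun N => ?_
      unfold KN
      have h3 : ∀ φ : Empty ↪ Fin N, av (fun A => Sf1.M N (ow φ (fun _ => True) A)
          (ow φ (fun _ => True) A)) = av (fun A => p N A) := by
        intro φ
        congr 1
        funext A
        rw [ow_empty hd]
      simp only [h3]
      have : Nonempty (Empty ↪ Fin N) := ⟨⟨Empty.elim, fun x => x.elim⟩⟩
      rw [av_const]
    rw [h2] at h1
    exact h1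
  -- expansion
  have hexp : ∀ (ι : Type) [Fintype ι] (P Q : (Fin d → ι) → Prop),
      Sh.K ι P Q = 1 / 4 * (Sq.K ι P Q - D ^ 2) := by
    intro ι _ P Q
    have hc := Sq.tendsto ι P Q
    set c := Sq.K ι P Q with hcdef
    refine tendsto_nhds_unique (Sh.tendsto ι P Q) ?_
    have h1 : Tendsto (fun N => 1 / 4 * (av (fun φ : ι ↪ Fin N => av (fun A => q N (ow φ P A)
        (ow φ Q A))) + ((-D) * av (fun φ : ι ↪ Fin N =>
          av (fun A => p N (ow φ P A))) + ((-D) * av (fun φ : ι ↪ Fin N =>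
          av (fun A => p N (ow φ Q A))) + D ^ 2)))) V
        (𝓝 (1 / 4 * (c + ((-D) * D + ((-D) * D + D ^ 2))))) :=
      (hc.add (((hav ι P).const_mul _).add (((hav ι Q).const_mul _).add
        tendsto_const_nhds))).const_mul _
    have e : c + ((-D) * D + ((-D) * D + D ^ 2)) = c - D ^ 2 := by ring
    rw [e] at h1
    refine h1.congr' ?_
    filter_upwards [hlarge (Fintype.card ι)] with N hN
    have : Nonempty (ι ↪ Fin N) := by
      refine Function.Embedding.nonempty_of_card_le ?_
      rwa [Fintype.card_fin]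
    unfold KN
    have e1 : ∀ (φ : ι ↪ Fin N) (A : Finset (Fin d → Fin N)),
        Sh.M N (ow φ P A) (ow φ Q A)
        = 1 / 4 * (q N (ow φ P A) (ow φ Q A) + ((-D) * p N (ow φ P A)
          + ((-D) * p N (ow φ Q A) + D ^ 2))) := by
      intro φ A
      change 1 / 4 * (q N (ow φ P A) (ow φ Q A) - D * p N (ow φ P A) - D * p N (ow φ Q A) + D ^ 2) = _
      ring
    simp only [e1, av_add, av_smul, av_const]
  -- the diagonal value
  have hv : Sh.v = 1 / 4 * (D - D ^ 2) := by
    have h1 : Sq.K Empty (fun _ => True) (fun _ => True) = D := by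
      refine tendsto_nhds_unique (Sq.tendsto Empty (fun _ => True) (fun _ => True)) ?_
      refine (hav Empty (fun _ => True)).congr fun N => ?_
      change _ = av (fun φ : Empty ↪ Fin N => av (fun A => q N (ow φ (fun _ => True) A)
        (ow φ (fun _ => True) A)))
      simp only [(hpq N).diag]
    unfold Sys.v
    rw [hexp, h1]
  -- values of `κ`
  have hκ0 : Sh.κ 0 Empty (fun _ => 0) 0 = Sh.v := by
    refine Sh.K_same _ hd _ _ fun c => ?_
    have : IsEmpty (Empty ⊕ Fin 0) := by infer_instance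
    exact isEmptyElim (c ⟨0, hd⟩)
  have hκ : ∀ s, Sh.κ 0 Empty (fun _ => 0) (s + 1) ≤ 1 / 4 * (- D ^ 2) := by
    intro s
    have h1 : Sh.κ 0 Empty (fun _ => 0) (s + 1)
        = Sh.K (Empty ⊕ Fin (s + 1)) (fun _ => False) (fun _ => True) := by
      refine Sh.K_congr (fun c => ?_) fun _ => Iff.rfl
      simp [Hit]
    have h2 : Sq.K (Empty ⊕ Fin (s + 1)) (fun _ => False) (fun _ => True) ≤ 0 := by
      refine le_of_tendsto' (Sq.tendsto (Empty ⊕ Fin (s + 1)) (fun _ => False) (fun _ => True))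
        fun N => ?_
      have h3 := av_nonneg (f := fun φ : Empty ⊕ Fin (s + 1) ↪ Fin N => av (fun A =>
        (-1) * q N (ow φ (fun _ => False) A) (ow φ (fun _ => True) A)))
        (fun φ => av_nonneg fun A => by have := hgood N s φ A; linarith)
      simp only [av_smul] at h3
      have h4 : KN N (Sq.M N) (Empty ⊕ Fin (s + 1)) (fun _ => False) (fun _ => True)
        = av (fun φ : Empty ⊕ Fin (s + 1) ↪ Fin N => av (fun A =>
        q N (ow φ (fun _ => False) A) (ow φ (fun _ => True) A))) := rfl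
      rw [h4]
      linarith
    rw [h1, hexp]
    linarith
  have hmean : mean (Sh.κ 0 Empty (fun _ => 0)) ≤ 1 / 4 * (- D ^ 2) := by
    rw [← mean_shift 1 (Sh.κ_bdd 0 Empty (fun _ => 0))]
    have h1 := mean_mono ((Sh.κ_bdd 0 Empty (fun _ => 0)).shift 1) (bdd_const _) hκ
    rwa [mean_const] at h1
  have hmain := Sh.main hSh hd d le_rfl Empty (fun _ => 0) (fun x => x.elim)
  rw [Nat.sub_self, hκ0, hv] at hmain
  have h1 := (abs_le.1 hmain).1
  have h1 := h1.trans (sub_le_sub_right hmean _)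
  -- arithmetic
  obtain ⟨e, rfl⟩ : ∃ e, d = e + 1 := ⟨d - 1, by omega⟩
  have h2 : (0 : ℝ) < 2 ^ e := by positivity
  have h3 : (1 : ℝ) ≤ 2 ^ e := one_le_pow₀ (by norm_num)
  have h4 : ((1 : ℝ) / 2) ^ (e + 1) = 1 / (2 * 2 ^ e) := by
    rw [div_pow, one_pow, pow_succ, mul_comm]
  rw [h4] at h1
  rw [Nat.add_sub_cancel, pow_succ]
  set x : ℝ := 2 ^ e with hx
  have h5 : 0 < x * 2 - 1 := by linarith
  rw [le_div_iff₀ h5]
  have h6 : 0 ≤ (D - D ^ 2) * (1 - 2 * (1 / (2 * x))) - D ^ 2 := by
    nlinarith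
  have h7 : (1 : ℝ) - 2 * (1 / (2 * x)) = (x - 1) / x := by
    field_simp
  rw [h7] at h6
  have h8 : 0 ≤ D * ((1 - D) * (x - 1) - D * x) := by
    have h9 : D * ((1 - D) * (x - 1) - D * x) = x * ((D - D ^ 2) * ((x - 1) / x) - D ^ 2) := by
      field_simp
    rw [h9]
    exact mul_nonneg h2.le h6
  have h10 : 0 ≤ (1 - D) * (x - 1) - D * x := by
    by_contra hcon
    push Not at hcon
    have := mul_neg_of_pos_of_neg hD0 hcon
    linarith
  linarith

end Pool.Agent.K4H98.Theta
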