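import Mathlib
import Pool.Agent.K4H98.Theta.Fin

set_option autoImplicit false

/-!
# Random characters on the subsets of `[N]^d`

For `r = (r₁, …, r_d)`, vectors of `F₂^N`, there is an `F₂`-linear function `ev r` of the subsets of
`[N]^d` whose value at `γ^d` is the OR of the bits `r_j(γ)`.
-/

namespace Pool.Agent.K4H98.Theta

open Finset Pool.Agent.TH7.DH

variable {d N : ℕ}

/-- the factor of the block `i` in the term `j` of the weight of `τ` -/
def fac (j i : Fin d) (τ : Fin d → Fin N) (v : Fin N → ZMod 2) : ZMod 2 :=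
  if i = j then v (τ j) else ((if τ i = τ j then 1 else 0) + if i < j then v (τ i) else 0)

/-- the weight of the tuple `τ` -/
def wt (r : Fin d → Fin N → ZMod 2) (τ : Fin d → Fin N) : ZMod 2 := ∑ j, ∏ i, fac j i τ (r i)

/-- the character -/
def ev (r : Fin d → Fin N → ZMod 2) (A : Finset (Fin d → Fin N)) : ZMod 2 := ∑ τ ∈ A, wt r τ

lemma ev_union (r : Fin d → Fin N → ZMod 2) {A B : Finset (Fin d → Fin N)} (h : Disjoint A B) :
    ev r (A ∪ B) = ev r A + ev r B := sum_union h

lemma term_cube (r : Fin d → Fin N → ZMod 2) (γ : Finset (Fin N)) (j : Fin d) :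
    ∑ τ ∈ Fintype.piFinset (fun _ : Fin d => γ), ∏ i, fac j i τ (r i)
      = (∑ x ∈ γ, r j x) * ∏ i with i < j, (1 + ∑ x ∈ γ, r i x) := by
  classical
  set g : Fin N → Fin d → Fin N → ZMod 2 := fun x i y =>
    if i = j then (if y = x then r j x else 0)
      else ((if y = x then 1 else 0) + if i < j then r i y else 0) with hg
  have h1 : ∀ τ ∈ Fintype.piFinset (fun _ : Fin d => γ),
      ∏ i, fac j i τ (r i) = ∑ x ∈ γ, ∏ i, g x i (τ i) := by
    intro τ hτ
    rw [Fintype.mem_piFinset] at hτ
    rw [sum_eq_single (τ j)]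
    · refine prod_congr rfl fun i _ => ?_
      unfold fac
      simp only [hg]
      by_cases hij : i = j
      · subst hij
        simp
      · simp [hij]
    · intro x _ hx
      refine prod_eq_zero (mem_univ j) ?_
      simp only [hg, if_true]
      rw [if_neg]
      exact fun h => hx h.symm
    · intro h
      exact (h (hτ j)).elim
  rw [sum_congr rfl h1, sum_comm, sum_mul]
  refine sum_congr rfl fun x hx => ?_
  have h2 := prod_univ_sum (fun _ : Fin d => γ) (fun i y => g x i y)
  rw [← h2, ← mul_prod_erase univ _ (mem_univ j)]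
  congr 1
  · simp only [hg, if_true]
    rw [sum_ite_eq' γ x, if_pos hx]
  · have h3 : ∀ i ∈ univ.erase j, ∑ y ∈ γ, g x i y = if i < j then (1 + ∑ x ∈ γ, r i x) else 1 := by
      intro i hi
      have hij : i ≠ j := ne_of_mem_erase hi
      simp only [hg, if_neg hij]
      rw [sum_add_distrib, sum_ite_eq' γ x, if_pos hx]
      split_ifs
      · rfl
      · simp
    rw [prod_congr rfl h3, prod_ite, prod_const_one, mul_one]
    refine prod_congr ?_ fun _ _ => rfl
    ext i
    simp only [mem_filter, mem_erase, mem_univ, and_true, true_and]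
    constructor
    · exact fun h => h.2
    · exact fun h => ⟨h.ne, h⟩

lemma ev_cube (r : Fin d → Fin N → ZMod 2) (γ : Finset (Fin N)) :
    ev r (Fintype.piFinset (fun _ : Fin d => γ)) = 1 + ∏ j, (1 + ∑ x ∈ γ, r j x) := by
  unfold ev wt
  rw [sum_comm, sum_congr rfl fun j _ => term_cube r γ j]
  have h1 := prod_add_ordered univ (fun _ : Fin d => (1 : ZMod 2)) (fun j => ∑ x ∈ γ, r j x)
  rw [h1]
  simp only [prod_const_one, mul_one]
  rw [← add_assoc, CharTwo.add_self_eq_zero, zero_add]

/-- block affine functions -/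
def BA {V : Type} [AddCommGroup V] {n : ℕ} (Q : (Fin n → V) → ZMod 2) : Prop :=
  ∀ (i : Fin n) (r : Fin n → V) (v w : V), Q (Function.update r i (v + w))
    = Q (Function.update r i v) + Q (Function.update r i w) + Q (Function.update r i 0)

lemma half {V : Type} [AddCommGroup V] [Fintype V] [DecidableEq V] (f : V → ZMod 2) (h0 : f 0 = 1)
    (h : ∀ v w, f (v + w) = f v + f w + f 0) :
    Fintype.card V ≤ 2 * (univ.filter fun v => f v = 1).card := by
  by_cases hc : ∀ v, f v = 1
  · rw [filter_true_of_mem fun v _ => hc v, card_univ]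
    omega
  · push Not at hc
    obtain ⟨v₀, hv₀⟩ := hc
    have hv0 : f v₀ = 0 := by
      revert hv₀
      generalize f v₀ = a
      revert a
      decide
    have h1 : (univ.filter fun v => ¬ f v = 1).card ≤ (univ.filter fun v => f v = 1).card := by
      refine card_le_card_of_injOn (fun v => v + v₀) ?_ fun _ _ _ _ h => add_right_cancel h
      intro v hv
      have hv' : ¬ f v = 1 := by simpa using hv
      simp only [coe_filter, mem_univ, true_and, Set.mem_ofPred_eq]
      rw [h, hv0, h0, add_zero]
      revert hv'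
      generalize f v = a
      revert a
      decide
    have h2 := card_filter_add_card_filter_not (s := (univ : Finset V)) (fun v => f v = 1)
    rw [card_univ] at h2
    omega

lemma ba_count {V : Type} [AddCommGroup V] [Fintype V] [DecidableEq V] (n : ℕ) :
    ∀ Q : (Fin n → V) → ZMod 2, BA Q → Q 0 = 1 →
      Fintype.card V ^ n ≤ 2 ^ n * (univ.filter fun r => Q r = 1).card := by
  induction n with
  | zero =>
    intro Q _ h0
    have h1 : (0 : Fin 0 → V) ∈ univ.filter fun r => Q r = 1 := mem_filter.2 ⟨mem_univ _, h0⟩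
    have := card_pos.2 ⟨_, h1⟩
    simp only [pow_zero, one_mul]
    omega
  | succ n ih =>
    intro Q hQ h0
    have hz : (Fin.cons (0 : V) (0 : Fin n → V) : Fin (n + 1) → V) = 0 := by
      funext i
      refine Fin.cases ?_ (fun i => ?_) i <;> simp
    -- the first block
    have hu : ∀ x : V, Function.update (Fin.cons 0 0 : Fin (n + 1) → V) 0 x = Fin.cons x 0 :=
      fun x => by
        funext i
        refine Fin.cases ?_ (fun i => ?_) i <;> simp
    have hT := half (fun v : V => Q (Fin.cons v 0)) (by rw [hz, h0]) (fun v w => by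
      have := hQ 0 (Fin.cons 0 0) v w
      rw [hu, hu, hu, hu] at this
      exact this)
    -- the other blocks
    have hS : ∀ v ∈ univ.filter (fun v : V => Q (Fin.cons v 0) = 1),
        Fintype.card V ^ n ≤ 2 ^ n * (univ.filter fun r : Fin n → V => Q (Fin.cons v r) = 1).card := by
      intro v hv
      refine ih (fun r => Q (Fin.cons v r)) ?_ (by simpa using hv)
      intro i r x y
      have e : ∀ x : V, (Fin.cons v (Function.update r i x) : Fin (n + 1) → V)
          = Function.update (Fin.cons v r : Fin (n + 1) → V) i.succ x :=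
        fun x => Fin.cons_update (α := fun _ => V) v r i x
      simp only [e]
      exact hQ i.succ (Fin.cons v r) x y
    have hsum : (univ.filter fun r : Fin (n + 1) → V => Q r = 1).card
        = ∑ v : V, (univ.filter fun r : Fin n → V => Q (Fin.cons v r) = 1).card := by
      rw [card_filter, ← (Fin.consEquiv fun _ : Fin (n + 1) => V).sum_comp, Fintype.sum_prod_type]
      refine sum_congr rfl fun v _ => ?_
      rw [card_filter]
      rfl
    calc Fintype.card V ^ (n + 1) = Fintype.card V * Fintype.card V ^ n := by rw [pow_succ, mul_comm]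
      _ ≤ (2 * (univ.filter fun v : V => Q (Fin.cons v 0) = 1).card) * Fintype.card V ^ n :=
          Nat.mul_le_mul_right _ hT
      _ = 2 * ∑ v ∈ univ.filter (fun v : V => Q (Fin.cons v 0) = 1), Fintype.card V ^ n := by
          rw [sum_const, smul_eq_mul, mul_assoc]
      _ ≤ 2 * ∑ v ∈ univ.filter (fun v : V => Q (Fin.cons v 0) = 1),
            2 ^ n * (univ.filter fun r : Fin n → V => Q (Fin.cons v r) = 1).card :=
          Nat.mul_le_mul_left _ (sum_le_sum hS)
      _ ≤ 2 * ∑ v : V, 2 ^ n * (univ.filter fun r : Fin n → V => Q (Fin.cons v r) = 1).card :=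
          Nat.mul_le_mul_left _ (sum_le_sum_of_subset (filter_subset _ _))
      _ = 2 ^ (n + 1) * (univ.filter fun r : Fin (n + 1) → V => Q r = 1).card := by
          rw [hsum, ← mul_sum, pow_succ]
          ring

lemma BA.add {V : Type} [AddCommGroup V] {n : ℕ} {Q R : (Fin n → V) → ZMod 2} (hQ : BA Q)
    (hR : BA R) : BA (fun r => Q r + R r) := by
  intro i r v w
  simp only [hQ i r v w, hR i r v w]
  ring

lemma BA.const {V : Type} [AddCommGroup V] {n : ℕ} (a : ZMod 2) :
    BA (fun _ : Fin n → V => a) := by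
  intro i r v w
  simp only
  rw [CharTwo.add_self_eq_zero, zero_add]

lemma BA.sum {V : Type} [AddCommGroup V] {n : ℕ} {I : Type} (s : Finset I)
    {Q : I → (Fin n → V) → ZMod 2} (hQ : ∀ i, BA (Q i)) : BA (fun r => ∑ i ∈ s, Q i r) := by
  intro i r v w
  simp only
  rw [← sum_add_distrib, ← sum_add_distrib]
  exact sum_congr rfl fun k _ => hQ k i r v w

lemma BA.prod {V : Type} [AddCommGroup V] {n : ℕ} (φ : Fin n → V → ZMod 2)
    (hφ : ∀ i v w, φ i (v + w) = φ i v + φ i w + φ i 0) : BA (fun r => ∏ i, φ i (r i)) := by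
  intro i r v w
  simp only
  have h1 : ∀ v : V, ∏ k, φ k (Function.update r i v k) = φ i v * ∏ k ∈ univ.erase i, φ k (r k) := by
    intro v
    rw [← mul_prod_erase univ _ (mem_univ i), Function.update_self]
    congr 1
    refine prod_congr rfl fun k hk => ?_
    rw [Function.update_of_ne (ne_of_mem_erase hk)]
  rw [h1, h1, h1, h1, hφ]
  ring

lemma fac_affine (j i : Fin d) (τ : Fin d → Fin N) (v w : Fin N → ZMod 2) :
    fac j i τ (v + w) = fac j i τ v + fac j i τ w + fac j i τ 0 := by
  unfold fac
  have h2 : ∀ a : ZMod 2, a + a = 0 := CharTwo.add_self_eq_zero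
  split_ifs <;> simp only [Pi.add_apply, Pi.zero_apply, add_zero, zero_add]
  · have := h2 (1 : ZMod 2)
    linear_combination -this
  · have := h2 (1 : ZMod 2)
    linear_combination -this

lemma wt_ba (τ : Fin d → Fin N) : BA (fun r : Fin d → Fin N → ZMod 2 => wt r τ) := by
  unfold wt
  exact BA.sum univ fun j => BA.prod (fun i v => fac j i τ v) fun i v w => fac_affine j i τ v w

lemma ev_ba (A : Finset (Fin d → Fin N)) : BA (fun r : Fin d → Fin N → ZMod 2 => ev r A) := by
  unfold ev
  exact BA.sum A fun τ => wt_ba τ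

lemma ev_zero (A : Finset (Fin d → Fin N)) : ev (0 : Fin d → Fin N → ZMod 2) A = 0 := by
  unfold ev wt
  refine sum_eq_zero fun τ _ => sum_eq_zero fun j _ => prod_eq_zero (mem_univ j) ?_
  simp [fac]

end Pool.Agent.K4H98.Theta
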