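import Mathlib
import Pool.Agent.K4H98.Theta.Char

set_option autoImplicit false

/-!
# A point in the theta body
-/

namespace Pool.Agent.K4H98.Theta

open Finset Pool.Agent.TH7.DH

variable {d N : ℕ}

/-- the sign `(-1)^a` -/
def sgn (a : ZMod 2) : ℝ := if a = 0 then 1 else -1

lemma sgn_mul_self (a : ZMod 2) : sgn a * sgn a = 1 := by
  unfold sgn; split_ifs <;> norm_num

lemma zmod2 (a : ZMod 2) : a = 0 ∨ a = 1 := by revert a; decide

lemma sgn_cases (a : ZMod 2) : sgn a = 1 ∨ sgn a = -1 := by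
  unfold sgn; split_ifs <;> simp

lemma sgn_add (a b : ZMod 2) : sgn (a + b) = sgn a * sgn b := by
  rcases zmod2 a with rfl | rfl <;> rcases zmod2 b with rfl | rfl
  · simp [sgn]
  · simp [sgn]
  · simp [sgn]
  · have : (1 : ZMod 2) + 1 = 0 := by decide
    rw [this]
    simp [sgn]

lemma sgn_one_add (a : ZMod 2) : sgn a = -1 + 2 * (if 1 + a = 1 then 1 else 0) := by
  rcases zmod2 a with rfl | rfl
  · norm_num [sgn]
  · have : ¬ ((1 : ZMod 2) + 1 = 1) := by decide
    rw [if_neg this]
    norm_num [sgn]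

/-- the space of parameters -/
abbrev Par (d N : ℕ) : Type := Fin d → Fin N → ZMod 2

/-- the average of the product of the signs -/
noncomputable def Kr (A B : Finset (Fin d → Fin N)) : ℝ :=
  av (fun r : Par d N => sgn (ev r A) * sgn (ev r B))

lemma Kr_symm (A B : Finset (Fin d → Fin N)) : Kr A B = Kr B A := by
  unfold Kr
  congr 1
  funext r
  exact mul_comm _ _

lemma Kr_self (A : Finset (Fin d → Fin N)) : Kr A A = 1 := by
  unfold Kr
  simp only [sgn_mul_self]
  exact av_const 1

lemma av_mono {X : Type} [Fintype X] {f g : X → ℝ} (h : ∀ x, f x ≤ g x) : av f ≤ av g := by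
  unfold av
  exact div_le_div_of_nonneg_right (sum_le_sum fun x _ => h x) (Nat.cast_nonneg _)

lemma Kr_le (A B : Finset (Fin d → Fin N)) : Kr A B ≤ 1 := by
  have h1 : Kr A B ≤ av (fun _ : Par d N => (1 : ℝ)) := by
    refine av_mono fun r => ?_
    rcases sgn_cases (ev r A) with h | h <;> rcases sgn_cases (ev r B) with h' | h' <;>
      rw [h, h'] <;> norm_num
  rwa [av_const] at h1

lemma Kr_tri (A B C : Finset (Fin d → Fin N)) : Kr A B + Kr A C - Kr B C ≤ 1 := by
  have h1 : Kr A B + Kr A C - Kr B C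
      = av (fun r : Par d N => sgn (ev r A) * sgn (ev r B) + sgn (ev r A) * sgn (ev r C)
        - sgn (ev r B) * sgn (ev r C)) := by
    unfold Kr
    rw [← av_add, av_sub]
  have h2 : Kr A B + Kr A C - Kr B C ≤ av (fun _ : Par d N => (1 : ℝ)) := by
    rw [h1]
    refine av_mono fun r => ?_
    rcases sgn_cases (ev r A) with h | h <;> rcases sgn_cases (ev r B) with h' | h' <;>
      rcases sgn_cases (ev r C) with h'' | h'' <;>
      rw [h, h', h''] <;> norm_num
  rwa [av_const] at h2

lemma Kr_sum (A B C : Finset (Fin d → Fin N)) : -1 ≤ Kr A B + Kr A C + Kr B C := by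
  have h1 : Kr A B + Kr A C + Kr B C
      = av (fun r : Par d N => sgn (ev r A) * sgn (ev r B) + sgn (ev r A) * sgn (ev r C)
        + sgn (ev r B) * sgn (ev r C)) := by
    unfold Kr
    rw [← av_add, ← av_add]
  have h2 : av (fun _ : Par d N => (-1 : ℝ)) ≤ Kr A B + Kr A C + Kr B C := by
    rw [h1]
    refine av_mono fun r => ?_
    rcases sgn_cases (ev r A) with h | h <;> rcases sgn_cases (ev r B) with h' | h' <;>
      rcases sgn_cases (ev r C) with h'' | h'' <;>
      rw [h, h', h''] <;> norm_num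
  rwa [av_const] at h2

lemma Kr_psd (c : Finset (Fin d → Fin N) → ℝ) : 0 ≤ ∑ A, ∑ B, c A * c B * Kr A B := by
  have h1 : ∑ A, ∑ B, c A * c B * Kr A B
      = av (fun r : Par d N => (∑ A, c A * sgn (ev r A)) ^ 2) := by
    have h2 : ∀ r : Par d N, (∑ A, c A * sgn (ev r A)) ^ 2
        = ∑ A, ∑ B, c A * c B * (sgn (ev r A) * sgn (ev r B)) := by
      intro r
      rw [sq, sum_mul_sum]
      refine sum_congr rfl fun A _ => sum_congr rfl fun B _ => ?_
      ring
    simp only [h2, av_sum, av_smul]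
    rfl
  rw [h1]
  exact av_nonneg fun r => sq_nonneg _

lemma card_par : (Fintype.card (Par d N) : ℝ) = (Fintype.card (Fin N → ZMod 2) : ℝ) ^ d := by
  rw [Fintype.card_fun, Fintype.card_fin]
  push_cast
  rfl

/-- the average of `-1 + 2 · 1[Q = 1]` -/
lemma av_ind_eq (Q : Par d N → ZMod 2) :
    av (fun r : Par d N => -1 + 2 * (if Q r = 1 then (1 : ℝ) else 0))
      = -1 + 2 * ((univ.filter fun r => Q r = 1).card / Fintype.card (Par d N)) := by
  rw [av_add, av_const, av_smul]
  congr 2
  unfold av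
  rw [sum_boole]

lemma Kr_ge (A B : Finset (Fin d → Fin N)) : -1 + 2 * (1 / 2) ^ d ≤ Kr A B := by
  classical
  have h1 : Kr A B = av (fun r : Par d N => -1 + 2 *
      (if 1 + (ev r A + ev r B) = 1 then (1 : ℝ) else 0)) := by
    unfold Kr
    congr 1
    funext r
    rw [← sgn_add, sgn_one_add]
  rw [h1, av_ind_eq]
  have h2 : BA (fun r : Par d N => 1 + (ev r A + ev r B)) :=
    (BA.const 1).add ((ev_ba A).add (ev_ba B))
  have h3 := ba_count d (fun r : Par d N => 1 + (ev r A + ev r B)) h2
    (by simp only [ev_zero]; decide)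
  have h4 : (0 : ℝ) < Fintype.card (Par d N) := by exact_mod_cast Fintype.card_pos
  have h5 : ((1 : ℝ) / 2) ^ d ≤ (univ.filter fun r : Par d N => 1 + (ev r A + ev r B) = 1).card
      / Fintype.card (Par d N) := by
    rw [le_div_iff₀ h4, card_par, div_pow, one_pow, div_mul_eq_mul_div, one_mul,
      div_le_iff₀ (by positivity), mul_comm]
    exact_mod_cast h3
  linarith

lemma card_zero_sum (γ : Finset (Fin N)) (hγ : γ.Nonempty) :
    2 * (univ.filter fun v : Fin N → ZMod 2 => ∑ x ∈ γ, v x = 0).card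
      = Fintype.card (Fin N → ZMod 2) := by
  classical
  obtain ⟨x₀, hx₀⟩ := hγ
  have h2 := card_filter_add_card_filter_not (s := (univ : Finset (Fin N → ZMod 2)))
    (fun v => ∑ x ∈ γ, v x = 0)
  rw [card_univ] at h2
  have hs : ∀ v : Fin N → ZMod 2, ∑ x ∈ γ, (v + Pi.single x₀ (1 : ZMod 2) : Fin N → ZMod 2) x
      = ∑ x ∈ γ, v x + 1 := by
    intro v
    simp only [Pi.add_apply, sum_add_distrib]
    congr 1
    rw [sum_eq_single x₀]
    · simp
    · intro x _ hx
      exact Pi.single_eq_of_ne hx 1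
    · intro h
      exact (h hx₀).elim
  have h3 : (univ.filter fun v : Fin N → ZMod 2 => ∑ x ∈ γ, v x = 0).card
      = (univ.filter fun v : Fin N → ZMod 2 => ¬ ∑ x ∈ γ, v x = 0).card := by
    apply le_antisymm
    · refine card_le_card_of_injOn (fun v => v + Pi.single x₀ 1) ?_
        fun _ _ _ _ h => add_right_cancel h
      intro v hv
      have hv' : ∑ x ∈ γ, v x = 0 := by simpa using hv
      simp only [coe_filter, mem_univ, true_and, Set.mem_ofPred_eq]
      rw [hs, hv']
      decide
    · refine card_le_card_of_injOn (fun v => v + Pi.single x₀ 1) ?_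
        fun _ _ _ _ h => add_right_cancel h
      intro v hv
      have hv' : ¬ ∑ x ∈ γ, v x = 0 := by simpa using hv
      simp only [coe_filter, mem_univ, true_and, Set.mem_ofPred_eq]
      rw [hs]
      rcases zmod2 (∑ x ∈ γ, v x) with h | h
      · exact (hv' h).elim
      · rw [h]
        decide
  omega

lemma ev_symmDiff (r : Par d N) (A B : Finset (Fin d → Fin N)) :
    ev r (symmDiff A B) = ev r A + ev r B := by
  classical
  have h1 : ev r A = ev r (A \ B) + ev r (A ∩ B) := by
    rw [← ev_union r (disjoint_sdiff_inter A B), sdiff_union_inter]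
  have h2 : ev r B = ev r (B \ A) + ev r (A ∩ B) := by
    rw [inter_comm, ← ev_union r (disjoint_sdiff_inter B A), sdiff_union_inter]
  have h3 : ev r (symmDiff A B) = ev r (A \ B) + ev r (B \ A) := by
    rw [← ev_union r disjoint_sdiff_sdiff]
    rfl
  have h4 := CharTwo.add_self_eq_zero (ev r (A ∩ B))
  rw [h1, h2, h3]
  linear_combination -h4

lemma Kr_edge (A B : Finset (Fin d → Fin N)) (γ : Finset (Fin N)) (hγ : γ.Nonempty)
    (hA : symmDiff A B = Fintype.piFinset (fun _ : Fin d => γ)) :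
    Kr A B = -1 + 2 * (1 / 2) ^ d := by
  classical
  have h1 : Kr A B = av (fun r : Par d N => -1 + 2 *
      (if 1 + (1 + ∏ j, (1 + ∑ x ∈ γ, r j x)) = 1 then (1 : ℝ) else 0)) := by
    unfold Kr
    congr 1
    funext r
    rw [← sgn_add, ← ev_symmDiff, hA, ev_cube, sgn_one_add]
  rw [h1, av_ind_eq (fun r : Par d N => 1 + (1 + ∏ j, (1 + ∑ x ∈ γ, r j x)))]
  have h2 : (univ.filter fun r : Par d N => 1 + (1 + ∏ j, (1 + ∑ x ∈ γ, r j x)) = 1)
      = Fintype.piFinset (fun _ : Fin d => univ.filter fun v : Fin N → ZMod 2 =>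
        ∑ x ∈ γ, v x = 0) := by
    ext r
    simp only [mem_filter, mem_univ, true_and, Fintype.mem_piFinset]
    rw [← add_assoc, CharTwo.add_self_eq_zero, zero_add]
    constructor
    · intro h j
      have h3 : (1 + ∑ x ∈ γ, r j x) ≠ 0 := by
        intro h4
        rw [prod_eq_zero (mem_univ j) h4] at h
        exact absurd h (by decide)
      rcases zmod2 (∑ x ∈ γ, r j x) with h5 | h5
      · exact h5
      · rw [h5] at h3
        exact (h3 (by decide)).elim
    · intro h
      refine prod_eq_one fun j _ => ?_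
      rw [h j, add_zero]
  have h3 := card_zero_sum γ hγ
  have h4 : (0 : ℝ) < Fintype.card (Fin N → ZMod 2) := by exact_mod_cast Fintype.card_pos
  have h5 : ((univ.filter fun v : Fin N → ZMod 2 => ∑ x ∈ γ, v x = 0).card : ℝ)
      = Fintype.card (Fin N → ZMod 2) * (1 / 2) := by
    have : (2 : ℝ) * (univ.filter fun v : Fin N → ZMod 2 => ∑ x ∈ γ, v x = 0).card
      = Fintype.card (Fin N → ZMod 2) := by exact_mod_cast h3
    linarith
  rw [h2, Fintype.card_piFinset_const, card_par]
  push_cast
  rw [h5, mul_pow]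
  congr 2
  field_simp

end Pool.Agent.K4H98.Theta
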