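import Mathlib
import Pool.Agent.K4H98.Theta.Low

set_option autoImplicit false

/-!
# The two bounds
-/

namespace Pool.Agent.K4H98.Theta

open Finset Filter Topology Pool.Agent.TH7.DH

/-- `cube d γ` is `γ^d`, the set of all `d`-tuples with entries in `γ`. -/
def cube {N : ℕ} (d : ℕ) (γ : Finset (Fin N)) : Finset (Fin d → Fin N) :=
  Fintype.piFinset (fun _ : Fin d => γ)

/-- the planted grid is a cube -/
lemma ow_cube {N d : ℕ} {s : ℕ} (φ : Empty ⊕ Fin (s + 1) ↪ Fin N) (A : Finset (Fin d → Fin N)) :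
    ∃ γ : Finset (Fin N), γ.Nonempty ∧ Disjoint (ow φ (fun _ => False) A) (cube d γ) ∧
      ow φ (fun _ => True) A = ow φ (fun _ => False) A ∪ cube d γ := by
  classical
  refine ⟨univ.map φ, ⟨φ (Sum.inr 0), mem_map_of_mem _ (mem_univ _)⟩, ?_, ?_⟩
  · rw [Finset.disjoint_left]
    intro c hc hc'
    rw [mem_ow] at hc
    rw [cube, Fintype.mem_piFinset] at hc'
    rcases hc with ⟨e, -, he⟩ | ⟨hne, -⟩
    · exact he
    · have : ∀ t, ∃ x, φ x = c t := fun t => by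
        have := hc' t
        rw [Finset.mem_map] at this
        obtain ⟨x, -, hx⟩ := this
        exact ⟨x, hx⟩
      choose e he using this
      exact hne ⟨e, funext he⟩
  · ext c
    have h3 : c ∈ cube d (univ.map φ) ↔ ∃ e : Fin d → Empty ⊕ Fin (s + 1),
        (fun t => φ (e t)) = c := by
      rw [cube, Fintype.mem_piFinset]
      constructor
      · intro hc
        have : ∀ t, ∃ x, φ x = c t := fun t => by
          have := hc t
          rw [Finset.mem_map] at this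
          obtain ⟨x, -, hx⟩ := this
          exact ⟨x, hx⟩
        choose e he using this
        exact ⟨e, funext he⟩
      · rintro ⟨e, rfl⟩ t
        exact mem_map_of_mem _ (mem_univ _)
    rw [mem_union, mem_ow, mem_ow, h3]
    by_cases hc : ∃ e : Fin d → Empty ⊕ Fin (s + 1), (fun t => φ (e t)) = c
    · simp [hc]
    · simp [hc]

lemma body_zero {X : Type} [Fintype X] : Body (fun _ : X => (0 : ℝ)) (fun _ _ => 0) :=
  ⟨fun _ _ => rfl, fun _ => rfl, fun t c => by simp [sq_nonneg]⟩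

/-- The upper bound. -/
theorem upper (d : ℕ) (hd : 1 ≤ d) (ε : ℝ) (hε : 0 < ε) : ∃ N₀ : ℕ, ∀ N : ℕ, N₀ ≤ N →
    ∀ (p : Finset (Fin d → Fin N) → ℝ) (q : Finset (Fin d → Fin N) → Finset (Fin d → Fin N) → ℝ),
      Body p q → (∀ (A : Finset (Fin d → Fin N)) (γ : Finset (Fin N)), γ.Nonempty →
        Disjoint A (cube d γ) → q A (A ∪ cube d γ) ≤ 0) →
      ∑ A, p A ≤ (((2 : ℝ) ^ (d - 1) - 1) / (2 ^ d - 1) + ε) * 2 ^ (N ^ d) := by
  classical
  by_contra hcon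
  push Not at hcon
  set δ : ℝ := ((2 : ℝ) ^ (d - 1) - 1) / (2 ^ d - 1) + ε with hδ
  -- the bad points
  set Q : (N : ℕ) → (Finset (Fin d → Fin N) → ℝ) →
      (Finset (Fin d → Fin N) → Finset (Fin d → Fin N) → ℝ) → Prop := fun N p q =>
    Body p q ∧ (∀ (A : Finset (Fin d → Fin N)) (γ : Finset (Fin N)), γ.Nonempty →
        Disjoint A (cube d γ) → q A (A ∪ cube d γ) ≤ 0) with hQ
  set B : Set ℕ := {N | ∃ p q, Q N p q ∧ δ * (2 : ℝ) ^ (N ^ d) < ∑ A, p A} with hB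
  have hfreq : ∃ᶠ N in (atTop : Filter ℕ), N ∈ B := by
    rw [frequently_atTop]
    intro N₀
    obtain ⟨N, hN, p, q, h1, h2, h3⟩ := hcon N₀
    exact ⟨N, hN, p, q, ⟨h1, h2⟩, h3⟩
  have hne : NeBot ((atTop : Filter ℕ) ⊓ 𝓟 B) := frequently_mem_iff_neBot.1 hfreq
  set V : Ultrafilter ℕ := Ultrafilter.of ((atTop : Filter ℕ) ⊓ 𝓟 B) with hVdef
  have hVle : (V : Filter ℕ) ≤ (atTop : Filter ℕ) ⊓ 𝓟 B := Ultrafilter.of_le _
  have hV1 : (V : Filter ℕ) ≤ atTop := hVle.trans inf_le_left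
  have hV2 : B ∈ (V : Filter ℕ) := hVle (mem_inf_of_right (mem_principal_self B))
  -- choose the points
  have hch : ∀ N : ℕ, ∃ p q, Q N p q ∧ (N ∈ B → δ * (2 : ℝ) ^ (N ^ d) < ∑ A, p A) := by
    intro N
    by_cases hN : N ∈ B
    · obtain ⟨p, q, hg, hS⟩ := hN
      exact ⟨p, q, hg, fun _ => hS⟩
    · exact ⟨fun _ => 0, fun _ _ => 0, ⟨body_zero, fun _ _ _ _ => le_rfl⟩, fun h => (hN h).elim⟩
  choose p q hpq hpd using hch
  -- the density
  set a : ℕ → ℝ := fun N => av (fun A => p N A) with ha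
  have hab : ∀ N, |a N| ≤ 1 := fun N => av_abs_le zero_le_one fun A => by
    rw [abs_of_nonneg ((hpq N).1.p_nonneg A)]
    exact (hpq N).1.p_le A
  have hD := ulim_tendsto (V := V) (a := a) ⟨1, hab⟩
  set D := ulim V a with hDdef
  have hδ0 : 0 < δ := by
    have : 0 ≤ ((2 : ℝ) ^ (d - 1) - 1) / (2 ^ d - 1) := by
      refine div_nonneg ?_ ?_
      · have : (1 : ℝ) ≤ 2 ^ (d - 1) := one_le_pow₀ (by norm_num)
        linarith
      · have : (1 : ℝ) ≤ 2 ^ d := one_le_pow₀ (by norm_num)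
        linarith
    linarith
  have hDδ : δ ≤ D := by
    refine ge_of_tendsto hD ?_
    filter_upwards [hV2] with N hN
    rw [ha]
    simp only
    unfold av
    have h1 : ((Fintype.card (Finset (Fin d → Fin N)) : ℕ) : ℝ) = 2 ^ (N ^ d) := by
      rw [Fintype.card_finset]
      simp
    rw [h1, le_div_iff₀ (by positivity)]
    exact (hpd N hN).le
  have hD1 : D ≤ 1 := le_of_tendsto' hD fun N => (abs_le.1 (hab N)).2
  have := limit_le hd V hV1 p q (fun N => (hpq N).1) (fun N s φ A => by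
    obtain ⟨γ, h1, h2, h3⟩ := ow_cube φ A
    rw [h3]
    exact (hpq N).2 _ γ h1 h2) D (lt_of_lt_of_le hδ0 hDδ) hD1 hD
  linarith

/-- facts on the constant -/
lemma const_facts (d : ℕ) (hd : 1 ≤ d) : 0 ≤ ((2 : ℝ) ^ (d - 1) - 1) / (2 ^ d - 1) ∧
    2 * (((2 : ℝ) ^ (d - 1) - 1) / (2 ^ d - 1)) ≤ 1 ∧
    (((2 : ℝ) ^ (d - 1) - 1) / (2 ^ d - 1) - (((2 : ℝ) ^ (d - 1) - 1) / (2 ^ d - 1)) ^ 2) *
      (-1 + 2 * (1 / 2) ^ d) = - (((2 : ℝ) ^ (d - 1) - 1) / (2 ^ d - 1)) ^ 2 := by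
  obtain ⟨e, rfl⟩ : ∃ e, d = e + 1 := ⟨d - 1, by omega⟩
  have h3 : (1 : ℝ) ≤ 2 ^ e := one_le_pow₀ (by norm_num)
  have h4 : ((1 : ℝ) / 2) ^ (e + 1) = 1 / (2 * 2 ^ e) := by
    rw [div_pow, one_pow, pow_succ, mul_comm]
  rw [Nat.add_sub_cancel, pow_succ, h4]
  set u : ℝ := 2 ^ e with hu
  have h5 : 0 < u * 2 - 1 := by linarith
  refine ⟨?_, ?_, ?_⟩
  · exact div_nonneg (by linarith) h5.le
  · rw [← mul_div_assoc, div_le_one h5]
    linarith
  · have h6 : u ≠ 0 := by positivity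
    have h7 : u * 2 - 1 ≠ 0 := h5.ne'
    field_simp
    ring

/-- The kernel of pair probabilities. -/
noncomputable def qq {d N : ℕ} (p η : ℝ) (A B : Finset (Fin d → Fin N)) : ℝ :=
  p ^ 2 + (p - p ^ 2) * (η * Kr A B + (1 - η) * if A = B then 1 else 0)

section

variable {d N : ℕ} {p η : ℝ}

lemma qq_symm (A B : Finset (Fin d → Fin N)) : qq p η A B = qq p η B A := by
  unfold qq
  rw [Kr_symm]
  simp only [eq_comm]

lemma qq_self (A : Finset (Fin d → Fin N)) : qq p η A A = p := by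
  unfold qq
  rw [Kr_self, if_pos rfl]
  ring

lemma qq_psd (hp0 : 0 ≤ p) (hp1 : p ≤ 1) (hη0 : 0 ≤ η) (hη1 : η ≤ 1) (t : ℝ)
    (f : Finset (Fin d → Fin N) → ℝ) :
    0 ≤ t ^ 2 + 2 * t * ∑ A, f A * p + ∑ A, ∑ B, f A * f B * qq p η A B := by
  have hcc0 : 0 ≤ p - p ^ 2 := by nlinarith
  have h1 := mul_nonneg hη0 (Kr_psd f)
  have h0 : 0 ≤ (1 - η) * ∑ A, f A ^ 2 :=
    mul_nonneg (by linarith) (sum_nonneg fun _ _ => sq_nonneg _)
  have h2 : t ^ 2 + 2 * t * ∑ A, f A * p + ∑ A, ∑ B, f A * f B * qq p η A B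
      = (t + p * ∑ A, f A) ^ 2 + (p - p ^ 2) * (η * (∑ A, ∑ B, f A * f B * Kr A B)
        + (1 - η) * ∑ A, f A ^ 2) := by
    have e1 : ∀ A B, f A * f B * qq p η A B
        = (p ^ 2 * f A) * f B + ((p - p ^ 2) * η * (f A * f B * Kr A B)
          + (p - p ^ 2) * (1 - η) * (f A * (f B * if A = B then 1 else 0))) := by
      intro A B
      unfold qq
      ring
    have e2 : ∀ A, ∑ B, f B * (if A = B then (1 : ℝ) else 0) = f A := by
      intro A
      simp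
    simp only [e1, sum_add_distrib, ← mul_sum, ← sum_mul, e2]
    have e3 : ∑ A, f A * f A = ∑ A, f A ^ 2 := sum_congr rfl fun A _ => (sq _).symm
    rw [e3]
    ring
  rw [h2]
  exact add_nonneg (sq_nonneg _) (mul_nonneg hcc0 (add_nonneg h1 h0))

end

end Pool.Agent.K4H98.Theta
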