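import Mathlib
import Pool.Agent.K4H98.Theta.Up

set_option autoImplicit false

/-!
# Local laws from moments
-/

namespace Pool.Agent.K4H98.Theta

open Finset

variable {X : Type} [DecidableEq X]

/-- the local law with the moments `y` -/
noncomputable def law (y : Finset X → ℝ) (T S : Finset X) : ℝ :=
  ∑ V ∈ (T \ S).powerset, (-1) ^ V.card * y (S ∪ V)

lemma law_self (y : Finset X → ℝ) (T : Finset X) : law y T T = y T := by
  unfold law
  simp

lemma law_step (y : Finset X → ℝ) {T S : Finset X} {A : X} (hA : A ∉ T) (hS : S ⊆ T) :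
    law y T S = law y (insert A T) S + law y (insert A T) (insert A S) := by
  have hAS : A ∉ S := fun h => hA (hS h)
  have h1 : insert A T \ S = insert A (T \ S) := insert_sdiff_of_notMem T hAS
  have h2 : insert A T \ insert A S = T \ S := by
    ext x
    simp only [mem_sdiff, mem_insert, not_or]
    constructor
    · rintro ⟨h | h, h3, h4⟩
      · exact (h3 h).elim
      · exact ⟨h, h4⟩
    · rintro ⟨h, h4⟩
      exact ⟨Or.inr h, fun h5 => hA (h5 ▸ h), h4⟩
  have hA' : A ∉ T \ S := fun h => hA (mem_sdiff.1 h).1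
  unfold law
  rw [h1, h2, sum_powerset_insert hA']
  have h3 : ∑ V ∈ (T \ S).powerset, (-1 : ℝ) ^ (insert A V).card * y (S ∪ insert A V)
      = - ∑ V ∈ (T \ S).powerset, (-1 : ℝ) ^ V.card * y (insert A S ∪ V) := by
    rw [← sum_neg_distrib]
    refine sum_congr rfl fun V hV => ?_
    have hV' : A ∉ V := fun h => hA' (mem_powerset.1 hV h)
    rw [card_insert_of_notMem hV', pow_succ]
    have h4 : S ∪ insert A V = insert A S ∪ V := by
      ext x
      simp only [mem_union, mem_insert]
      tauto
    rw [h4]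
    ring
  rw [h3]
  ring

lemma law_cons (y : Finset X → ℝ) (T : Finset X) : ∀ R : Finset X, Disjoint T R → ∀ S ⊆ T,
    law y T S = ∑ V ∈ R.powerset, law y (T ∪ R) (S ∪ V) := by
  intro R
  induction R using Finset.induction_on generalizing T with
  | empty => intro _ S _; simp
  | insert A R hAR ih =>
    intro hd S hS
    rw [disjoint_insert_right] at hd
    have hA : A ∉ T := hd.1
    rw [law_step y hA hS, ih (insert A T) ?_ S (hS.trans (subset_insert _ _)),
      ih (insert A T) ?_ (insert A S) (insert_subset_insert _ hS), sum_powerset_insert hAR]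
    · congr 1
      · refine sum_congr rfl fun V _ => ?_
        congr 1
        ext x
        simp only [mem_union, mem_insert]
        tauto
      · refine sum_congr rfl fun V _ => ?_
        congr 1
        · ext x
          simp only [mem_union, mem_insert]
          tauto
        · ext x
          simp only [mem_union, mem_insert]
          tauto
    · rw [disjoint_insert_left]
      exact ⟨hAR, hd.2⟩
    · rw [disjoint_insert_left]
      exact ⟨hAR, hd.2⟩

lemma law_marg (y : Finset X → ℝ) {T T' : Finset X} (h : T' ⊆ T) {S' : Finset X} (hS : S' ⊆ T') :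
    law y T' S' = ∑ S ∈ T.powerset with S ∩ T' = S', law y T S := by
  rw [law_cons y T' (T \ T') disjoint_sdiff S' hS, union_sdiff_of_subset h]
  refine sum_bij (fun V _ => S' ∪ V) ?_ ?_ ?_ (fun _ _ => rfl)
  · intro V hV
    rw [mem_powerset] at hV
    rw [mem_filter, mem_powerset]
    refine ⟨union_subset (hS.trans h) (hV.trans sdiff_subset), ?_⟩
    ext x
    simp only [mem_inter, mem_union]
    constructor
    · rintro ⟨h1 | h1, h2⟩
      · exact h1
      · exact absurd h2 (mem_sdiff.1 (hV h1)).2
    · intro h1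
      exact ⟨Or.inl h1, hS h1⟩
  · intro V hV W hW hVW
    rw [mem_powerset] at hV hW
    have h1 : ∀ U ⊆ T \ T', (S' ∪ U) \ T' = U := by
      intro U hU
      ext x
      simp only [mem_sdiff, mem_union]
      constructor
      · rintro ⟨h2 | h2, h3⟩
        · exact absurd (hS h2) h3
        · exact h2
      · intro h2
        exact ⟨Or.inr h2, (mem_sdiff.1 (hU h2)).2⟩
    rw [← h1 V hV, ← h1 W hW]
    change S' ∪ V = S' ∪ W at hVW
    rw [hVW]
  · intro S hS1
    rw [mem_filter, mem_powerset] at hS1
    refine ⟨S \ T', mem_powerset.2 (sdiff_subset_sdiff hS1.1 (Subset.refl _)), ?_⟩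
    rw [← hS1.2, union_comm]
    exact sdiff_union_inter S T'

/-- Laws of random sets of vertices of the graph `E`, for all sets of at most `k` vertices, and
positive semidefiniteness of the matrix of the probabilities of pairs. -/
structure Relaxed (k : ℕ) {X : Type} [Fintype X] [DecidableEq X] (E : X → X → Prop)
    (μ : Finset X → Finset X → ℝ) : Prop where
  nonneg : ∀ T S, T.card ≤ k → S ⊆ T → 0 ≤ μ T S
  total : ∀ T, T.card ≤ k → ∑ S ∈ T.powerset, μ T S = 1
  indep : ∀ T S, T.card ≤ k → S ⊆ T → (∃ A ∈ S, ∃ B ∈ S, E A B) → μ T S = 0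
  marg : ∀ T T', T.card ≤ k → T' ⊆ T → ∀ S', S' ⊆ T' →
    μ T' S' = ∑ S ∈ T.powerset with S ∩ T' = S', μ T S
  psd : ∀ (t : ℝ) (c : X → ℝ), 0 ≤ t ^ 2 + 2 * t * ∑ A, c A * μ {A} {A}
    + ∑ A, ∑ B, c A * c B * μ {A, B} {A, B}

/-- A criterion in terms of moments. -/
lemma relaxed_of_moments {k : ℕ} [Fintype X] {E : X → X → Prop} (y : Finset X → ℝ) (h0 : y ∅ = 1)
    (hnn : ∀ T S, T.card ≤ k → S ⊆ T → 0 ≤ law y T S) (hE : ∀ A B, E A B → y {A, B} = 0)
    (hpsd : ∀ (t : ℝ) (c : X → ℝ), 0 ≤ t ^ 2 + 2 * t * ∑ A, c A * y {A}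
      + ∑ A, ∑ B, c A * c B * y {A, B}) : Relaxed k E (law y) := by
  have hmarg : ∀ T T' : Finset X, T' ⊆ T → ∀ S', S' ⊆ T' →
      law y T' S' = ∑ S ∈ T.powerset with S ∩ T' = S', law y T S :=
    fun T T' h S' hS' => law_marg y h hS'
  refine ⟨hnn, fun T hT => ?_, fun T S hT hS ⟨A, hA, B, hB, hAB⟩ => ?_,
    fun T T' _ h S' hS' => hmarg T T' h S' hS', ?_⟩
  · have h1 := hmarg T ∅ (empty_subset _) ∅ (Subset.refl _)
    rw [law_self, h0] at h1
    rw [h1]
    refine sum_congr ?_ fun _ _ => rfl
    rw [filter_true_of_mem]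
    intro S _
    exact inter_empty S
  · have h2 : ({A, B} : Finset X) ⊆ T := by
      intro x hx
      rw [mem_insert, mem_singleton] at hx
      rcases hx with rfl | rfl
      · exact hS hA
      · exact hS hB
    have h1 := hmarg T {A, B} h2 {A, B} (Subset.refl _)
    rw [law_self, hE A B hAB] at h1
    have h3 := (sum_eq_zero_iff_of_nonneg (s := T.powerset.filter fun S => S ∩ {A, B} = {A, B})
      (f := fun S => law y T S) (fun S hS => hnn T S hT (mem_powerset.1 (mem_filter.1 hS).1))).1
      h1.symm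
    refine h3 S ?_
    rw [mem_filter, mem_powerset]
    refine ⟨hS, inter_eq_right.2 ?_⟩
    intro x hx
    rw [mem_insert, mem_singleton] at hx
    rcases hx with rfl | rfl
    · exact hA
    · exact hB
  · intro t c
    simp only [law_self]
    exact hpsd t c

end Pool.Agent.K4H98.Theta
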