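import Mathlib
import Pool.Agent.K4H98.Theta.Loc

set_option autoImplicit false

/-!
# Local laws with given pair probabilities
-/

namespace Pool.Agent.K4H98.Theta

open Finset

variable {X : Type} [DecidableEq X]

/-- the sum of `q` over the pairs in `W` -/
noncomputable def pairs (q : X → X → ℝ) (W : Finset X) : ℝ := (∑ A ∈ W, ∑ B ∈ W.erase A, q A B) / 2

/-- the moments with single probabilities `p`, pair probabilities `q` and triple probabilities `t` -/
noncomputable def mom (p : ℝ) (q : X → X → ℝ) (t : Finset X → ℝ) (W : Finset X) : ℝ :=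
  if W.card = 0 then 1 else if W.card = 1 then p else if W.card = 2 then pairs q W
    else if W.card = 3 then t W else 0

variable {p : ℝ} {q : X → X → ℝ} {t : Finset X → ℝ}

lemma mom_empty : mom p q t ∅ = 1 := by simp [mom]

lemma mom_one {W : Finset X} (h : W.card = 1) : mom p q t W = p := by simp [mom, h]

lemma mom_two {W : Finset X} (h : W.card = 2) : mom p q t W = pairs q W := by simp [mom, h]

lemma mom_three {W : Finset X} (h : W.card = 3) : mom p q t W = t W := by simp [mom, h]

lemma mom_large {W : Finset X} (h : 4 ≤ W.card) : mom p q t W = 0 := by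
  unfold mom
  rw [if_neg (by omega), if_neg (by omega), if_neg (by omega), if_neg (by omega)]

lemma pairs_pair (hs : ∀ A B, q A B = q B A) {A B : X} (h : A ≠ B) : pairs q {A, B} = q A B := by
  have h1 : ({A, B} : Finset X).erase A = {B} := by
    ext x; simp only [mem_erase, mem_insert, mem_singleton]
    constructor
    · rintro ⟨h1, h2 | h2⟩
      · exact (h1 h2).elim
      · exact h2
    · rintro rfl
      exact ⟨h.symm, Or.inr rfl⟩
  have h2 : ({A, B} : Finset X).erase B = {A} := by
    ext x; simp only [mem_erase, mem_insert, mem_singleton]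
    constructor
    · rintro ⟨h1, h2 | h2⟩
      · exact h2
      · exact (h1 h2).elim
    · rintro rfl
      exact ⟨h, Or.inl rfl⟩
  unfold pairs
  rw [sum_pair h, h1, h2, sum_singleton, sum_singleton, hs B A]
  ring

lemma mom_pair (hs : ∀ A B, q A B = q B A) (hd : ∀ A, q A A = p) (A B : X) :
    mom p q t {A, B} = q A B := by
  by_cases h : A = B
  · subst h
    rw [hd, mom_one]
    simp
  · rw [mom_two (card_pair h), pairs_pair hs h]

omit [DecidableEq X] in
lemma sum_powerset_small (R : Finset X) (n : ℕ) (f : Finset X → ℝ)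
    (hf : ∀ V ⊆ R, n < V.card → f V = 0) :
    ∑ V ∈ R.powerset, f V = ∑ j ∈ range (n + 1), ∑ V ∈ powersetCard j R, f V := by
  have h1 : ∑ V ∈ R.powerset, f V = ∑ V ∈ R.powerset.filter (fun V => V.card ≤ n), f V := by
    symm
    refine sum_subset (filter_subset _ _) fun V hV hV' => ?_
    refine hf V (mem_powerset.1 hV) ?_
    by_contra h
    exact hV' (mem_filter.2 ⟨hV, not_lt.1 h⟩)
  rw [h1, ← sum_fiberwise_of_maps_to (g := fun V : Finset X => V.card) (t := range (n + 1))
    (fun V hV => mem_range.2 (Nat.lt_succ_of_le (mem_filter.1 hV).2))]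
  refine sum_congr rfl fun j hj => sum_congr ?_ fun _ _ => rfl
  ext V
  simp only [mem_filter, mem_powerset, mem_powersetCard]
  constructor
  · rintro ⟨⟨h1, _⟩, h2⟩
    exact ⟨h1, h2⟩
  · rintro ⟨h1, h2⟩
    have := mem_range.1 hj
    exact ⟨⟨h1, by omega⟩, h2⟩

/-- positivity of the laws without triples -/
lemma law_nonneg_of_small {k : ℕ} (hs : ∀ A B, q A B = q B A) (hp : 0 ≤ p) (hkp : k * p ≤ 1)
    (hq0 : ∀ A B, 0 ≤ q A B) (hq : ∀ A B, A ≠ B → k * q A B ≤ p) (T S : Finset X)
    (hT : T.card ≤ k) (hS : S ⊆ T) : 0 ≤ law (mom p q (fun _ => 0)) T S := by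
  have hbig : ∀ W : Finset X, 3 ≤ W.card → mom p q (fun _ => 0) W = 0 := by
    intro W hW
    by_cases h : W.card = 3
    · rw [mom_three h]
    · exact mom_large (by omega)
  have hpairs : ∀ W : Finset X, 0 ≤ pairs q W := fun W =>
    div_nonneg (sum_nonneg fun A _ => sum_nonneg fun B _ => hq0 A B) (by norm_num)
  have hcard : ∀ V ⊆ T \ S, (S ∪ V).card = S.card + V.card := fun V hV =>
    card_union_of_disjoint (disjoint_sdiff.mono_right hV)
  unfold law
  rcases Nat.lt_or_ge 2 S.card with h3 | h3
  · refine le_of_eq (Eq.symm (sum_eq_zero fun V hV => ?_))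
    rw [hbig, mul_zero]
    rw [hcard V (mem_powerset.1 hV)]
    omega
  · interval_cases hc : S.card
    · -- empty
      have hS0 : S = ∅ := card_eq_zero.1 hc
      subst hS0
      rw [sum_powerset_small _ 2]
      · rw [sum_range_succ, sum_range_succ, sum_range_succ, range_zero, sum_empty, zero_add,
          powersetCard_zero, sum_singleton]
        have e1 : ∑ V ∈ powersetCard 1 (T \ ∅), (-1 : ℝ) ^ V.card * mom p q (fun _ => 0) (∅ ∪ V)
            = - (T.card * p) := by
          have : ∀ V ∈ powersetCard 1 (T \ ∅), (-1 : ℝ) ^ V.card * mom p q (fun _ => 0) (∅ ∪ V)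
              = - p := by
            intro V hV
            rw [mem_powersetCard] at hV
            rw [empty_union, mom_one hV.2, hV.2]
            ring
          rw [sum_congr rfl this, sum_const, card_powersetCard, sdiff_empty, Nat.choose_one_right,
            nsmul_eq_mul]
          ring
        have e2 : 0 ≤ ∑ V ∈ powersetCard 2 (T \ ∅), (-1 : ℝ) ^ V.card *
            mom p q (fun _ => 0) (∅ ∪ V) := by
          refine sum_nonneg fun V hV => ?_
          rw [mem_powersetCard] at hV
          rw [empty_union, mom_two hV.2, hV.2]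
          have := hpairs V
          linarith
        have e3 : (T.card : ℝ) * p ≤ 1 := by
          refine le_trans (mul_le_mul_of_nonneg_right ?_ hp) hkp
          exact_mod_cast hT
        rw [e1]
        rw [empty_union, mom_empty, card_empty]
        linarith
      · intro V hV h2
        rw [hbig _ (by rw [empty_union]; exact h2), mul_zero]
    · -- one
      obtain ⟨A, rfl⟩ := card_eq_one.1 hc
      rw [sum_powerset_small _ 1]
      · rw [sum_range_succ, sum_range_succ, range_zero, sum_empty, zero_add,
          powersetCard_zero, sum_singleton]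
        have e1 : ∑ V ∈ powersetCard 1 (T \ {A}), (-1 : ℝ) ^ V.card *
            mom p q (fun _ => 0) ({A} ∪ V) = - ∑ B ∈ T \ {A}, q A B := by
          rw [powersetCard_one, sum_map, ← sum_neg_distrib]
          refine sum_congr rfl fun B hB => ?_
          have hAB : A ≠ B := fun h => (mem_sdiff.1 hB).2 (mem_singleton.2 h.symm)
          simp only [Function.Embedding.coeFn_mk, card_singleton]
          have h5 : ({A} ∪ {B} : Finset X) = {A, B} := rfl
          rw [h5, mom_two (card_pair hAB), pairs_pair hs hAB]
          ring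
        rw [e1]
        rw [union_empty, mom_one (card_singleton A), card_empty]
        have e2 : k * ∑ B ∈ T \ {A}, q A B ≤ k * p := by
          have hA : A ∈ T := singleton_subset_iff.1 hS
          have h6 : (T \ {A}).card ≤ k := (card_le_card sdiff_subset).trans hT
          rw [mul_sum]
          calc ∑ B ∈ T \ {A}, (k : ℝ) * q A B ≤ ∑ _B ∈ T \ {A}, p := by
                refine sum_le_sum fun B hB => hq A B ?_
                exact fun h => (mem_sdiff.1 hB).2 (mem_singleton.2 h.symm)
            _ = ((T \ {A}).card : ℝ) * p := by rw [sum_const, nsmul_eq_mul]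
            _ ≤ k * p := mul_le_mul_of_nonneg_right (by exact_mod_cast h6) hp
        have hk0 : (0 : ℝ) < k := by
          have h7 : 1 ≤ T.card := by
            have := card_le_card hS
            rwa [card_singleton] at this
          exact_mod_cast (lt_of_lt_of_le Nat.zero_lt_one (h7.trans hT))
        have e3 : ∑ B ∈ T \ {A}, q A B ≤ p := le_of_mul_le_mul_left e2 hk0
        linarith
      · intro V hV h2
        rw [hbig _ ?_, mul_zero]
        rw [hcard V hV]
        omega
    · -- two
      rw [sum_powerset_small _ 0]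
      · rw [sum_range_succ, range_zero, sum_empty, zero_add, powersetCard_zero, sum_singleton,
          union_empty, mom_two hc, card_empty]
        have := hpairs S
        linarith
      · intro V hV h2
        rw [hbig _ ?_, mul_zero]
        rw [hcard V hV]
        omega

/-- the probability of a triple -/
noncomputable def trip (p : ℝ) (q : X → X → ℝ) (W : Finset X) : ℝ :=
  (insert 0 (W.image fun A => (∑ B ∈ W.erase A, q A B) - p)).max' (insert_nonempty _ _)

lemma trip_nonneg (W : Finset X) : 0 ≤ trip p q W := le_max' _ _ (mem_insert_self _ _)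

lemma trip_ge {W : Finset X} {A : X} (hA : A ∈ W) : (∑ B ∈ W.erase A, q A B) - p ≤ trip p q W :=
  le_max' _ _ (mem_insert_of_mem
    (mem_image_of_mem (fun A => (∑ B ∈ W.erase A, q A B) - p) hA))

lemma trip_le {W : Finset X} {M : ℝ} (h0 : 0 ≤ M) (h : ∀ A ∈ W, (∑ B ∈ W.erase A, q A B) - p ≤ M) :
    trip p q W ≤ M := by
  refine max'_le _ _ _ fun x hx => ?_
  rw [mem_insert, mem_image] at hx
  rcases hx with rfl | ⟨A, hA, rfl⟩
  · exact h0
  · exact h A hA

lemma erase_three {A B C : X} (hAB : A ≠ B) (hAC : A ≠ C) :
    ({A, B, C} : Finset X).erase A = {B, C} := by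
  rw [erase_insert]
  simp [hAB, hAC]

lemma rot (A B C : X) : ({A, B, C} : Finset X) = {B, C, A} := by
  ext x; simp only [mem_insert, mem_singleton]; tauto

lemma swap3 (A B C : X) : ({A, B, C} : Finset X) = {B, A, C} := by
  ext x; simp only [mem_insert, mem_singleton]; tauto

/-- positivity of the laws of three vertices -/
lemma law_nonneg_three (hs : ∀ A B, q A B = q B A) (hp : 0 ≤ p) (hp2 : 2 * p ≤ 1)
    (hq0 : ∀ A B, 0 ≤ q A B) (hq1 : ∀ A B, q A B ≤ p) (htri : ∀ A B C, q A B + q A C - p ≤ q B C)
    (hsum : ∀ A B C, 0 ≤ 1 - 3 * p + (q A B + q A C + q B C)) (T S : Finset X)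
    (hT : T.card ≤ 3) (hS : S ⊆ T) : 0 ≤ law (mom p q (trip p q)) T S := by
  -- the triple probabilities
  have hsumq : ∀ A B C : X, A ≠ B → A ≠ C → B ≠ C →
      ∑ D ∈ ({A, B, C} : Finset X).erase A, q A D = q A B + q A C := by
    intro A B C hAB hAC hBC
    rw [erase_three hAB hAC, sum_pair hBC]
  have ht1 : ∀ A B C : X, A ≠ B → A ≠ C → B ≠ C → q A B + q A C - p ≤ trip p q {A, B, C} := by
    intro A B C hAB hAC hBC
    have := trip_ge (p := p) (q := q) (W := {A, B, C}) (A := A) (mem_insert_self _ _)
    rwa [hsumq A B C hAB hAC hBC] at this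
  have ht2 : ∀ (A B C : X), A ≠ B → A ≠ C → B ≠ C → ∀ M : ℝ, 0 ≤ M → q A B + q A C - p ≤ M →
      q A B + q B C - p ≤ M → q A C + q B C - p ≤ M → trip p q {A, B, C} ≤ M := by
    intro A B C hAB hAC hBC M h0 h1 h2 h3
    refine trip_le h0 fun D hD => ?_
    simp only [mem_insert, mem_singleton] at hD
    rcases hD with rfl | rfl | rfl
    · rw [hsumq _ B C hAB hAC hBC]
      exact h1
    · rw [rot, hsumq _ C A hBC hAB.symm hAC.symm, hs _ A]
      linarith
    · rw [← rot, hsumq _ A B hAC.symm hBC.symm hAB, hs _ A, hs _ B]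
      linarith
  have ht3 : ∀ A B C : X, A ≠ B → A ≠ C → B ≠ C → trip p q {A, B, C} ≤ q A B := by
    intro A B C hAB hAC hBC
    refine ht2 A B C hAB hAC hBC _ (hq0 _ _) ?_ ?_ ?_
    · have := hq1 A C
      linarith
    · have := hq1 B C
      linarith
    · have := htri C A B
      rw [hs C A, hs C B] at this
      exact this
  have ht4 : ∀ A B C : X, A ≠ B → A ≠ C → B ≠ C →
      trip p q {A, B, C} ≤ 1 - 3 * p + (q A B + q A C + q B C) := by
    intro A B C hAB hAC hBC
    refine ht2 A B C hAB hAC hBC _ (hsum _ _ _) ?_ ?_ ?_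
    · have := hq0 B C
      linarith
    · have := hq0 A C
      linarith
    · have := hq0 A B
      linarith
  set y := mom p q (trip p q) with hy
  have hy0 : y ∅ = 1 := mom_empty
  have hy1 : ∀ A, y {A} = p := fun A => mom_one (card_singleton A)
  have hy2 : ∀ A B, A ≠ B → y {A, B} = q A B := fun A B h => by
    rw [hy, mom_two (card_pair h), pairs_pair hs h]
  have hy3 : ∀ A B C, A ≠ B → A ≠ C → B ≠ C → y {A, B, C} = trip p q {A, B, C} := fun A B C h1 h2 h3 =>
    mom_three (card_eq_three.2 ⟨A, B, C, h1, h2, h3, rfl⟩)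
  have hcard : T.card = S.card + (T \ S).card := by
    rw [card_sdiff_of_subset hS]
    have := card_le_card hS
    omega
  have hdis : Disjoint S (T \ S) := disjoint_sdiff
  unfold law
  generalize T \ S = R at *
  have hRS : S.card + R.card ≤ 3 := by omega
  have hR3 : R.card ≤ 3 := by omega
  interval_cases hR : R.card
  · -- no other vertices
    rw [card_eq_zero.1 hR, powerset_empty, sum_singleton, union_empty, card_empty, pow_zero, one_mul]
    have hS3 : S.card ≤ 3 := by omega
    interval_cases hSc : S.card
    · rw [card_eq_zero.1 hSc, hy0]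
      norm_num
    · obtain ⟨A, rfl⟩ := card_eq_one.1 hSc
      rw [hy1]
      exact hp
    · obtain ⟨A, B, h, rfl⟩ := card_eq_two.1 hSc
      rw [hy2 _ _ h]
      exact hq0 _ _
    · obtain ⟨A, B, C, h1, h2, h3, rfl⟩ := card_eq_three.1 hSc
      rw [hy3 _ _ _ h1 h2 h3]
      exact trip_nonneg _
  · -- one other vertex
    obtain ⟨D, rfl⟩ := card_eq_one.1 hR
    have hDS : D ∉ S := disjoint_singleton_right.1 hdis
    have e : ({D} : Finset X) = insert D ∅ := rfl
    rw [e, sum_powerset_insert (notMem_empty D), powerset_empty, sum_singleton, sum_singleton,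
      union_empty, card_empty, pow_zero, one_mul, ← e, card_singleton]
    have hS3 : S.card ≤ 2 := by omega
    have hSD : S ∪ {D} = insert D S := by
      ext x; simp only [mem_union, mem_insert, mem_singleton]; tauto
    rw [hSD]
    interval_cases hSc : S.card
    · rw [card_eq_zero.1 hSc, hy0, ← e, hy1]
      linarith
    · obtain ⟨A, rfl⟩ := card_eq_one.1 hSc
      have h1 : D ≠ A := fun h => hDS (mem_singleton.2 h)
      have h5 : insert D ({A} : Finset X) = {D, A} := rfl
      rw [h5, hy1, hy2 _ _ h1]
      have := hq1 D A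
      linarith
    · obtain ⟨A, B, h, rfl⟩ := card_eq_two.1 hSc
      have h1 : D ≠ A := fun h => hDS (by rw [h]; exact mem_insert_self _ _)
      have h2 : D ≠ B := fun h => hDS (by rw [h]; exact mem_insert_of_mem (mem_singleton_self _))
      have h5 : insert D ({A, B} : Finset X) = {D, A, B} := rfl
      rw [h5, hy2 _ _ h, hy3 _ _ _ h1 h2 h, rot]
      have := ht3 A B D h h1.symm h2.symm
      linarith
  · -- two other vertices
    obtain ⟨D, F, hDF, rfl⟩ := card_eq_two.1 hR
    have hDS : D ∉ S := fun h => (disjoint_left.1 hdis h) (mem_insert_self _ _)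
    have hFS : F ∉ S := fun h => (disjoint_left.1 hdis h) (mem_insert_of_mem (mem_singleton_self _))
    have hD' : D ∉ ({F} : Finset X) := by simpa using hDF
    have e : ({F} : Finset X) = insert F ∅ := rfl
    rw [sum_powerset_insert hD', e, sum_powerset_insert (notMem_empty F),
      sum_powerset_insert (notMem_empty F), powerset_empty, sum_singleton, sum_singleton,
      sum_singleton, sum_singleton, union_empty, ← e]
    have c1 : (insert D ∅ : Finset X).card = 1 := card_singleton D
    have c2 : (insert D {F} : Finset X).card = 2 := card_pair hDF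
    rw [c1, c2, card_singleton, card_empty]
    have hS3 : S.card ≤ 1 := by omega
    interval_cases hSc : S.card
    · rw [card_eq_zero.1 hSc, empty_union, empty_union, empty_union]
      have e1 : (insert D ∅ : Finset X) = {D} := rfl
      have e2 : (insert D {F} : Finset X) = {D, F} := rfl
      rw [e1, e2, hy0, hy1, hy1, hy2 _ _ hDF]
      have := hq0 D F
      linarith
    · obtain ⟨A, rfl⟩ := card_eq_one.1 hSc
      have h1 : A ≠ D := fun h => hDS (mem_singleton.2 h.symm)
      have h2 : A ≠ F := fun h => hFS (mem_singleton.2 h.symm)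
      have e1 : ({A} ∪ {F} : Finset X) = {A, F} := rfl
      have e2 : ({A} ∪ insert D ∅ : Finset X) = {A, D} := rfl
      have e3 : ({A} ∪ insert D {F} : Finset X) = {A, D, F} := rfl
      rw [e1, e2, e3, hy1, hy2 _ _ h1, hy2 _ _ h2, hy3 _ _ _ h1 h2 hDF]
      have := ht1 A D F h1 h2 hDF
      linarith
  · -- three other vertices
    have hS0 : S = ∅ := card_eq_zero.1 (by omega)
    subst hS0
    obtain ⟨A, B, C, h1, h2, h3, rfl⟩ := card_eq_three.1 hR
    have hA : A ∉ ({B, C} : Finset X) := by simp [h1, h2]
    have hB : B ∉ ({C} : Finset X) := by simp [h3]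
    have e : ({C} : Finset X) = insert C ∅ := rfl
    simp only [empty_union]
    rw [sum_powerset_insert hA, sum_powerset_insert hB, sum_powerset_insert hB, e]
    simp only [sum_powerset_insert (notMem_empty C), powerset_empty, sum_singleton]
    rw [← e]
    have e1 : (insert A ∅ : Finset X) = {A} := rfl
    have e2 : (insert B ∅ : Finset X) = {B} := rfl
    have e3 : (insert A {C} : Finset X) = {A, C} := rfl
    have e4 : (insert B {C} : Finset X) = {B, C} := rfl
    rw [e2, e4, e1, e3]
    have e5 : (insert A {B} : Finset X) = {A, B} := rfl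
    have e6 : (insert A {B, C} : Finset X) = {A, B, C} := rfl
    rw [e5, e6, card_pair h1, card_pair h2, card_pair h3, card_singleton, card_singleton,
      card_singleton, card_empty, card_eq_three.2 ⟨A, B, C, h1, h2, h3, rfl⟩, hy0, hy1, hy1, hy1,
      hy2 _ _ h1, hy2 _ _ h2, hy2 _ _ h3, hy3 _ _ _ h1 h2 h3]
    have := ht4 A B C h1 h2 h3
    linarith

end Pool.Agent.K4H98.Theta
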