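import Mathlib
import Pool.Agent.K4H98.Theta.Sol

set_option autoImplicit false

/-!
# The levels of the Sherali-Adams hierarchy with the theta body
-/

namespace Pool.Agent.K4H98.Theta

open Finset

/-- `A` and `B` are joined in the graph of the problem. -/
def Joined {N d : ℕ} (A B : Finset (Fin d → Fin N)) : Prop :=
  ∃ γ : Finset (Fin N), γ.Nonempty ∧ Disjoint A (cube d γ) ∧ B = A ∪ cube d γ

/-- `A ∆ B = γ^d` for a nonempty `γ`. -/
def SJoined {N d : ℕ} (A B : Finset (Fin d → Fin N)) : Prop :=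
  ∃ γ : Finset (Fin N), γ.Nonempty ∧ symmDiff A B = cube d γ

lemma Joined.sjoined {N d : ℕ} {A B : Finset (Fin d → Fin N)} (h : Joined A B) : SJoined A B := by
  obtain ⟨γ, hγ, hA, rfl⟩ := h
  refine ⟨γ, hγ, ?_⟩
  ext x
  have h1 : x ∈ A → x ∉ cube d γ := fun h => disjoint_left.1 hA h
  simp only [mem_symmDiff, mem_union]
  tauto

lemma SJoined.ne {N d : ℕ} {A B : Finset (Fin d → Fin N)} (h : SJoined A B) : A ≠ B := by
  rintro rfl
  obtain ⟨γ, ⟨x, hx⟩, hA⟩ := h
  rw [symmDiff_self] at hA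
  have h1 : (fun _ : Fin d => x) ∈ cube d γ := by
    rw [cube, Fintype.mem_piFinset]
    exact fun _ => hx
  rw [← hA] at h1
  exact absurd h1 (notMem_empty _)

lemma Relaxed.mono {k : ℕ} {X : Type} [Fintype X] [DecidableEq X] {E E' : X → X → Prop}
    {μ : Finset X → Finset X → ℝ} (h : Relaxed k E μ) (hE : ∀ A B, E' A B → E A B) :
    Relaxed k E' μ :=
  ⟨h.nonneg, h.total, fun T S hT hS ⟨A, hA, B, hB, hAB⟩ =>
    h.indep T S hT hS ⟨A, hA, B, hB, hE A B hAB⟩, h.marg, h.psd⟩

/-- the family is good -/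
def Gd {N d : ℕ} (S : Finset (Finset (Fin d → Fin N))) : Prop := ∃ A ∈ S, ∃ B ∈ S, Joined A B

/-- the solution of level three -/
theorem level_three (d : ℕ) (hd : 1 ≤ d) (N : ℕ) :
    ∃ μ : Finset (Finset (Fin d → Fin N)) → Finset (Finset (Fin d → Fin N)) → ℝ,
      Relaxed 3 SJoined μ ∧ ∀ A, μ {A} {A} = ((2 : ℝ) ^ (d - 1) - 1) / (2 ^ d - 1) := by
  classical
  obtain ⟨hc0, hc2, hcc⟩ := const_facts d hd
  set c : ℝ := ((2 : ℝ) ^ (d - 1) - 1) / (2 ^ d - 1) with hc
  have hcc0 : 0 ≤ c - c ^ 2 := by nlinarith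
  set q : Finset (Fin d → Fin N) → Finset (Fin d → Fin N) → ℝ := qq c 1 with hqdef
  have hq : ∀ A B, q A B = c ^ 2 + (c - c ^ 2) * Kr A B := by
    intro A B
    rw [hqdef]
    unfold qq
    ring
  have hq0 : ∀ A B, 0 ≤ q A B := by
    intro A B
    have h1 := mul_le_mul_of_nonneg_left (Kr_ge A B) hcc0
    rw [hcc] at h1
    rw [hq]
    linarith
  have hq1 : ∀ A B, q A B ≤ c := by
    intro A B
    have h1 := mul_le_mul_of_nonneg_left (Kr_le A B) hcc0
    rw [hq]
    linarith
  have hqt : ∀ A B C, q A B + q A C - c ≤ q B C := by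
    intro A B C
    have h1 := mul_le_mul_of_nonneg_left (Kr_tri A B C) hcc0
    rw [hq, hq, hq]
    linarith
  have hqs : ∀ A B C, 0 ≤ 1 - 3 * c + (q A B + q A C + q B C) := by
    intro A B C
    have h1 := mul_le_mul_of_nonneg_left (Kr_sum A B C) hcc0
    rw [hq, hq, hq]
    nlinarith [sq_nonneg (1 - 2 * c)]
  have hm := fun A B => mom_pair (p := c) (q := q) (t := trip c q) qq_symm qq_self A B
  refine ⟨law (mom c q (trip c q)), relaxed_of_moments _ mom_empty
    (law_nonneg_three qq_symm hc0 hc2 hq0 hq1 hqt hqs) ?_ ?_, ?_⟩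
  · rintro A B ⟨γ, hγ, hA⟩
    rw [hm, hq]
    have h1 := Kr_edge A B γ hγ hA
    rw [h1, hcc]
    ring
  · intro t f
    simp only [hm, mom_one (card_singleton _)]
    exact qq_psd hc0 (by linarith) zero_le_one le_rfl t f
  · intro A
    rw [law_self, mom_one (card_singleton A)]

/-- solutions of all levels -/
theorem level_all (d : ℕ) (hd : 1 ≤ d) (k : ℕ) (hk : 1 ≤ k) (N : ℕ) :
    ∃ μ : Finset (Finset (Fin d → Fin N)) → Finset (Finset (Fin d → Fin N)) → ℝ,
      Relaxed k SJoined μ ∧ ∀ A, μ {A} {A} = (1 - 2 / 2 ^ d) / (2 * k + (1 - 2 / 2 ^ d)) := by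
  classical
  have hd2 : (2 : ℝ) ≤ 2 ^ d := by
    calc (2 : ℝ) = 2 ^ 1 := by norm_num
      _ ≤ 2 ^ d := pow_le_pow_right₀ (by norm_num) hd
  set l : ℝ := 1 - 2 / 2 ^ d with hl
  have hl0 : 0 ≤ l := by
    rw [hl, sub_nonneg, div_le_one (by positivity)]
    exact hd2
  have hl1 : l ≤ 1 := by
    rw [hl]
    have : (0 : ℝ) ≤ 2 / 2 ^ d := by positivity
    linarith
  have hlk : -1 + 2 * ((1 : ℝ) / 2) ^ d = - l := by
    rw [hl, div_pow, one_pow]
    ring
  have hk1 : (1 : ℝ) ≤ k := by exact_mod_cast hk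
  have hden : 0 < 2 * (k : ℝ) + l := by linarith
  set p : ℝ := l / (2 * k + l) with hp
  set η : ℝ := 1 / (2 * k) with hη
  have hp0 : 0 ≤ p := div_nonneg hl0 hden.le
  have hkp : k * p ≤ 1 / 2 := by
    rw [hp, ← mul_div_assoc, div_le_iff₀ hden]
    nlinarith
  have hp1 : p ≤ 1 := by nlinarith
  have hη0 : 0 ≤ η := by positivity
  have hkη : k * η = 1 / 2 := by
    rw [hη]
    field_simp
  have hη1 : η ≤ 1 := by
    rw [hη, div_le_one (by positivity)]
    linarith
  have hpp : (p - p ^ 2) * (η * (-l)) = - p ^ 2 := by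
    rw [hp, hη]
    field_simp
    ring
  have hpp0 : 0 ≤ p - p ^ 2 := by nlinarith
  set q : Finset (Fin d → Fin N) → Finset (Fin d → Fin N) → ℝ := qq p η with hqdef
  have hq0 : ∀ A B, 0 ≤ q A B := by
    intro A B
    have h1 := mul_le_mul_of_nonneg_left (mul_le_mul_of_nonneg_left (Kr_ge A B) hη0) hpp0
    rw [hlk, hpp] at h1
    have h2 : 0 ≤ (p - p ^ 2) * ((1 - η) * if A = B then 1 else 0) := by
      refine mul_nonneg hpp0 (mul_nonneg (by linarith) ?_)
      split_ifs <;> norm_num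
    rw [hqdef]
    unfold qq
    nlinarith
  have hqk : ∀ A B, A ≠ B → k * q A B ≤ p := by
    intro A B hAB
    have h1 := mul_le_mul_of_nonneg_left (mul_le_mul_of_nonneg_left (Kr_le A B) hη0) hpp0
    have h2 : q A B ≤ p ^ 2 + (p - p ^ 2) * η := by
      rw [hqdef]
      unfold qq
      rw [if_neg hAB]
      linarith
    have h3 : p ^ 2 + (p - p ^ 2) * η ≤ p * p + p * η := by nlinarith
    calc (k : ℝ) * q A B ≤ k * (p * p + p * η) :=
          mul_le_mul_of_nonneg_left (h2.trans h3) (by linarith)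
      _ = p * (k * p) + p * (k * η) := by ring
      _ ≤ p * (1 / 2) + p * (1 / 2) := by
          rw [hkη]
          exact add_le_add_left (mul_le_mul_of_nonneg_left hkp hp0) _
      _ = p := by ring
  have hm := fun A B => mom_pair (p := p) (q := q) (t := fun _ => 0) qq_symm qq_self A B
  refine ⟨law (mom p q (fun _ => 0)), relaxed_of_moments _ mom_empty
    (law_nonneg_of_small qq_symm hp0 (by linarith) hq0 hqk) ?_ ?_, ?_⟩
  · intro A B hAB
    have hne := hAB.ne
    obtain ⟨γ, hγ, hA⟩ := hAB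
    rw [hm, hqdef]
    unfold qq
    rw [if_neg hne]
    have h1 := Kr_edge A B γ hγ hA
    rw [h1, hlk, mul_zero, add_zero, hpp]
    ring
  · intro t f
    simp only [hm, mom_one (card_singleton _)]
    exact qq_psd hp0 hp1 hη0 hη1 t f
  · intro A
    rw [law_self, mom_one (card_singleton A)]

/-- level two is contained in the theta body -/
lemma Relaxed.body {N d k : ℕ} (hk : 2 ≤ k)
    {μ : Finset (Finset (Fin d → Fin N)) → Finset (Finset (Fin d → Fin N)) → ℝ}
    (h : Relaxed k Joined μ) :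
    Body (fun A => μ {A} {A}) (fun A B => μ {A, B} {A, B}) ∧
      ∀ (A : Finset (Fin d → Fin N)) (γ : Finset (Fin N)), γ.Nonempty →
        Disjoint A (cube d γ) → μ {A, A ∪ cube d γ} {A, A ∪ cube d γ} ≤ 0 := by
  classical
  refine ⟨⟨fun A B => by rw [pair_comm], fun A => by simp, h.psd⟩, fun A γ hγ hA => ?_⟩
  refine (h.indep _ _ (card_le_two.trans hk) (Subset.refl _) ⟨A, mem_insert_self _ _, A ∪ cube d γ,
    mem_insert_of_mem (mem_singleton_self _), γ, hγ, hA, rfl⟩).le

/-- the bound by planted copies -/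
theorem planted {d k m N : ℕ} (hm : m ≤ N) (hk : 2 ^ (m ^ d) ≤ k) (δ : ℝ)
    (hδ : ∀ S : Finset (Finset (Fin d → Fin m)), δ * 2 ^ (m ^ d) < S.card → Gd S)
    (μ : Finset (Finset (Fin d → Fin N)) → Finset (Finset (Fin d → Fin N)) → ℝ)
    (h : Relaxed k Joined μ) : ∑ A, μ {A} {A} ≤ δ * 2 ^ (N ^ d) := by
  classical
  -- the grid
  set φ : Fin m ↪ Fin N := Fin.castLEEmb hm with hφ
  set Φ : (Fin d → Fin m) ↪ (Fin d → Fin N) :=
    ⟨fun c t => φ (c t), fun a b hab => funext fun t => φ.injective (congrFun hab t)⟩ with hΦ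
  set C : Finset (Fin d → Fin N) := univ.map Φ with hC
  have hCcard : C.card = m ^ d := by
    rw [hC, card_map, card_univ]
    simp
  set x : Finset (Fin d → Fin N) → Finset (Fin d → Fin m) → Finset (Fin d → Fin N) :=
    fun A₀ P => (A₀ \ C) ∪ P.map Φ with hx
  have hPC : ∀ P : Finset (Fin d → Fin m), P.map Φ ⊆ C := fun P => map_subset_map.2 (subset_univ _)
  have hxinj : ∀ A₀, Function.Injective (x A₀) := by
    intro A₀ P Q hPQ
    have h1 : ∀ P, x A₀ P ∩ C = P.map Φ := by
      intro P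
      simp only [hx]
      ext c
      simp only [mem_inter, mem_union, mem_sdiff]
      constructor
      · rintro ⟨h1 | h1, h2⟩
        · exact absurd h2 h1.2
        · exact h1
      · intro h1
        exact ⟨Or.inr h1, hPC P h1⟩
    have h2 : P.map Φ = Q.map Φ := by rw [← h1, ← h1, hPQ]
    exact map_injective Φ h2
  -- edges
  have hedge : ∀ (A₀ : Finset (Fin d → Fin N)) (P Q : Finset (Fin d → Fin m)), Joined P Q →
      Joined (x A₀ P) (x A₀ Q) := by
    rintro A₀ P Q ⟨γ, hγ, hP, rfl⟩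
    have hcube : (cube d γ).map Φ = cube d (γ.map φ) := by
      ext c
      simp only [mem_map, cube, Fintype.mem_piFinset]
      constructor
      · rintro ⟨e, he, rfl⟩ t
        exact ⟨e t, he t, rfl⟩
      · intro hc
        choose e he he' using hc
        exact ⟨e, he, funext he'⟩
    refine ⟨γ.map φ, hγ.map, ?_, ?_⟩
    · rw [← hcube]
      simp only [hx]
      rw [disjoint_union_left]
      exact ⟨disjoint_sdiff_self_left.mono_right (hPC _), (disjoint_map Φ).2 hP⟩
    · rw [← hcube]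
      simp only [hx]
      rw [map_union, union_assoc]
  -- one planted copy
  have hone : ∀ A₀, ∑ P, μ {x A₀ P} {x A₀ P} ≤ δ * 2 ^ (m ^ d) := by
    intro A₀
    set T : Finset (Finset (Fin d → Fin N)) := univ.map ⟨x A₀, hxinj A₀⟩ with hT
    have hTc : T.card ≤ k := by
      rw [hT, card_map, card_univ]
      simpa using hk
    have hxT : ∀ P, x A₀ P ∈ T := fun P => mem_map_of_mem ⟨x A₀, hxinj A₀⟩ (mem_univ P)
    have h1 : ∀ P, μ {x A₀ P} {x A₀ P} = ∑ S ∈ T.powerset, if x A₀ P ∈ S then μ T S else 0 := by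
      intro P
      rw [h.marg T {x A₀ P} hTc (singleton_subset_iff.2 (hxT P)) _ (Subset.refl _), sum_filter]
      refine sum_congr rfl fun S _ => ?_
      congr 1
      rw [inter_eq_right, singleton_subset_iff]
    rw [sum_congr rfl fun P _ => h1 P, sum_comm]
    calc ∑ S ∈ T.powerset, ∑ P, (if x A₀ P ∈ S then μ T S else 0)
        ≤ ∑ S ∈ T.powerset, μ T S * (δ * 2 ^ (m ^ d)) := by
          refine sum_le_sum fun S hS => ?_
          rw [mem_powerset] at hS
          have e1 : ∑ P, (if x A₀ P ∈ S then μ T S else 0)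
              = ((univ.filter fun P => x A₀ P ∈ S).card : ℝ) * μ T S := by
            rw [← sum_filter, sum_const, nsmul_eq_mul]
          rw [e1, mul_comm]
          have h0 := h.nonneg T S hTc hS
          by_cases hg : Gd (univ.filter fun P => x A₀ P ∈ S)
          · obtain ⟨P, hP, Q, hQ, hPQ⟩ := hg
            have h2 := h.indep T S hTc hS ⟨x A₀ P, (mem_filter.1 hP).2, x A₀ Q, (mem_filter.1 hQ).2,
              hedge A₀ P Q hPQ⟩
            rw [h2, zero_mul, zero_mul]
          · refine mul_le_mul_of_nonneg_left ?_ h0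
            by_contra hcon
            exact hg (hδ _ (not_le.1 hcon))
      _ = δ * 2 ^ (m ^ d) := by
          rw [← sum_mul, h.total T hTc, one_mul]
  -- average
  have h2 : ∑ A₀ : Finset (Fin d → Fin N), ∑ P, μ {x A₀ P} {x A₀ P}
      = 2 ^ (m ^ d) * ∑ A, μ {A} {A} := by
    rw [sum_comm]
    have h3 : ∀ P : Finset (Fin d → Fin m), ∑ A₀ : Finset (Fin d → Fin N), μ {x A₀ P} {x A₀ P}
        = 2 ^ (m ^ d) * ∑ A, if A ∩ C = P.map Φ then μ {A} {A} else 0 := by
      intro P
      have := Pool.Agent.TH7.DH.sum_plant (fun A => μ {A} {A}) C (P.map Φ) (hPC P)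
      rw [hCcard] at this
      exact this
    rw [sum_congr rfl fun P _ => h3 P, ← mul_sum, sum_comm]
    congr 1
    refine sum_congr rfl fun A _ => ?_
    obtain ⟨P, hP⟩ : ∃ P : Finset (Fin d → Fin m), P.map Φ = A ∩ C := by
      refine ⟨univ.filter fun c => Φ c ∈ A, ?_⟩
      ext c
      simp only [mem_map, mem_filter, mem_univ, true_and, mem_inter, hC]
      constructor
      · rintro ⟨e, he, rfl⟩
        exact ⟨he, e, rfl⟩
      · rintro ⟨hc, e, rfl⟩
        exact ⟨e, hc, rfl⟩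
    rw [sum_eq_single P]
    · rw [if_pos hP.symm]
    · intro Q _ hQ
      rw [if_neg]
      intro h4
      exact hQ (map_injective Φ (h4.symm.trans hP.symm))
    · intro h4
      exact (h4 (mem_univ P)).elim
  have h5 : ∑ A₀ : Finset (Fin d → Fin N), ∑ P, μ {x A₀ P} {x A₀ P}
      ≤ 2 ^ (N ^ d) * (δ * 2 ^ (m ^ d)) := by
    refine (sum_le_sum fun A₀ _ => hone A₀).trans (le_of_eq ?_)
    rw [sum_const, nsmul_eq_mul, card_univ, Fintype.card_finset]
    simp
  rw [h2] at h5
  have h6 : (0 : ℝ) < 2 ^ (m ^ d) := by positivity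
  nlinarith

/-- families which are not good are solutions -/
lemma relaxed_of_family {N d : ℕ} (k : ℕ) (S : Finset (Finset (Fin d → Fin N))) (hS : ¬ Gd S) :
    Relaxed k Joined (fun T W => if W = S ∩ T then (1 : ℝ) else 0) := by
  classical
  refine ⟨fun T W _ _ => ?_, fun T _ => ?_, ?_, ?_, ?_⟩
  · split_ifs <;> norm_num
  · rw [sum_ite_eq', if_pos (mem_powerset.2 inter_subset_right)]
  · rintro T W _ _ ⟨A, hA, B, hB, hAB⟩
    rw [if_neg]
    rintro rfl
    exact hS ⟨A, (mem_inter.1 hA).1, B, (mem_inter.1 hB).1, hAB⟩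
  · intro T T' _ hT' S' hS'
    rw [sum_filter]
    have h1 : ∀ W ∈ T.powerset, (if W ∩ T' = S' then (if W = S ∩ T then (1 : ℝ) else 0) else 0)
        = if W = S ∩ T then (if S' = S ∩ T' then (1 : ℝ) else 0) else 0 := by
      intro W _
      by_cases hW : W = S ∩ T
      · subst hW
        rw [if_pos rfl, if_pos rfl, inter_assoc, inter_eq_right.2 hT']
        by_cases h2 : S ∩ T' = S'
        · rw [if_pos h2, if_pos h2.symm]
        · rw [if_neg h2, if_neg (Ne.symm h2)]
      · rw [if_neg hW, if_neg hW, ite_self]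
    rw [sum_congr rfl h1, sum_ite_eq', if_pos (mem_powerset.2 inter_subset_right)]
  · intro t c
    have e1 : ∀ A, (if ({A} : Finset (Finset (Fin d → Fin N))) = S ∩ {A} then (1 : ℝ) else 0)
        = if A ∈ S then 1 else 0 := by
      intro A
      have h1 : ({A} : Finset (Finset (Fin d → Fin N))) = S ∩ {A} ↔ A ∈ S := by
        rw [eq_comm, inter_eq_right, singleton_subset_iff]
      simp only [h1]
    have e2 : ∀ A B, (if ({A, B} : Finset (Finset (Fin d → Fin N))) = S ∩ {A, B} then (1 : ℝ) else 0)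
        = (if A ∈ S then 1 else 0) * (if B ∈ S then 1 else 0) := by
      intro A B
      have h1 : ({A, B} : Finset (Finset (Fin d → Fin N))) = S ∩ {A, B} ↔ A ∈ S ∧ B ∈ S := by
        rw [eq_comm, inter_eq_right, insert_subset_iff, singleton_subset_iff]
      simp only [h1]
      by_cases hA : A ∈ S <;> by_cases hB : B ∈ S <;> simp [hA, hB]
    simp only [e1, e2]
    have h1 : t ^ 2 + 2 * t * ∑ A, c A * (if A ∈ S then 1 else 0) + ∑ A, ∑ B, c A * c B *
        ((if A ∈ S then 1 else 0) * (if B ∈ S then 1 else 0))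
        = (t + ∑ A, c A * (if A ∈ S then 1 else 0)) ^ 2 := by
      rw [add_sq, sq (∑ A, c A * (if A ∈ S then 1 else 0)), sum_mul_sum]
      congr 1
      refine sum_congr rfl fun A _ => sum_congr rfl fun B _ => ?_
      ring
    rw [h1]
    exact sq_nonneg _

end Pool.Agent.K4H98.Theta
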